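import Mathlib

set_option autoImplicit false

namespace Pool.Agent.NH77.BB

open Filter Topology

/-- The group: finitely supported sequences over `ZMod 7`. -/
abbrev G := ℕ →₀ ZMod 7

/-- Bounded real functions on `G`. -/
def Bdd (f : G → ℝ) : Prop := ∃ C : ℝ, ∀ x, |f x| ≤ C

theorem Bdd.const (c : ℝ) : Bdd (fun _ => c) := ⟨|c|, fun _ => le_rfl⟩

theorem Bdd.add {f g : G → ℝ} (hf : Bdd f) (hg : Bdd g) : Bdd (fun x => f x + g x) := by
  obtain ⟨C, hC⟩ := hf
  obtain ⟨D, hD⟩ := hg
  exact ⟨C + D, fun x => (abs_add_le _ _).trans (add_le_add (hC x) (hD x))⟩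

theorem Bdd.mul {f g : G → ℝ} (hf : Bdd f) (hg : Bdd g) : Bdd (fun x => f x * g x) := by
  obtain ⟨C, hC⟩ := hf
  obtain ⟨D, hD⟩ := hg
  refine ⟨C * D, fun x => ?_⟩
  rw [abs_mul]
  exact mul_le_mul (hC x) (hD x) (abs_nonneg _) ((abs_nonneg _).trans (hC x))

theorem Bdd.smul {f : G → ℝ} (c : ℝ) (hf : Bdd f) : Bdd (fun x => c * f x) :=
  (Bdd.const c).mul hf

theorem Bdd.neg {f : G → ℝ} (hf : Bdd f) : Bdd (fun x => - f x) := by
  obtain ⟨C, hC⟩ := hf
  exact ⟨C, fun x => by rw [abs_neg]; exact hC x⟩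

theorem Bdd.sub {f g : G → ℝ} (hf : Bdd f) (hg : Bdd g) : Bdd (fun x => f x - g x) := by
  have := hf.add hg.neg
  simpa [sub_eq_add_neg] using this

theorem Bdd.pow {f : G → ℝ} (hf : Bdd f) (n : ℕ) : Bdd (fun x => f x ^ n) := by
  obtain ⟨C, hC⟩ := hf
  refine ⟨C ^ n, fun x => ?_⟩
  rw [abs_pow]
  exact pow_le_pow_left₀ (abs_nonneg _) (hC x) n

theorem Bdd.sum {ι : Type*} (s : Finset ι) {F : ι → G → ℝ} (hF : ∀ i ∈ s, Bdd (F i)) :
    Bdd (fun x => ∑ i ∈ s, F i x) := by
  classical
  induction s using Finset.induction_on with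
  | empty => simpa using Bdd.const 0
  | insert a s ha ih =>
    have h1 := hF a (Finset.mem_insert_self a s)
    have h2 := ih (fun i hi => hF i (Finset.mem_insert_of_mem hi))
    have := h1.add h2
    simpa [Finset.sum_insert ha] using this

theorem Bdd.comp {f : G → ℝ} (hf : Bdd f) (φ : G → G) : Bdd (fun x => f (φ x)) := by
  obtain ⟨C, hC⟩ := hf
  exact ⟨C, fun x => hC _⟩

theorem Bdd.of_le {f : G → ℝ} (C : ℝ) (h : ∀ x, |f x| ≤ C) : Bdd f := ⟨C, h⟩

theorem Bdd.of_mem_Icc {f : G → ℝ} (h0 : ∀ x, 0 ≤ f x) (h1 : ∀ x, f x ≤ 1) : Bdd f :=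
  ⟨1, fun x => by rw [abs_of_nonneg (h0 x)]; exact h1 x⟩

/-- Indicator function of a set. -/
noncomputable def ind (X : Set G) : G → ℝ := X.indicator (fun _ => 1)

theorem ind_of_mem {X : Set G} {x : G} (h : x ∈ X) : ind X x = 1 := by
  simp [ind, h]

theorem ind_of_notMem {X : Set G} {x : G} (h : x ∉ X) : ind X x = 0 := by
  simp [ind, h]

theorem ind_nonneg (X : Set G) (x : G) : 0 ≤ ind X x := by
  by_cases h : x ∈ X
  · rw [ind_of_mem h]; norm_num
  · rw [ind_of_notMem h]

theorem ind_le_one (X : Set G) (x : G) : ind X x ≤ 1 := by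
  by_cases h : x ∈ X
  · rw [ind_of_mem h]
  · rw [ind_of_notMem h]; norm_num

theorem ind_bdd (X : Set G) : Bdd (ind X) := Bdd.of_mem_Icc (ind_nonneg X) (ind_le_one X)

theorem ind_inter (X Y : Set G) (x : G) : ind (X ∩ Y) x = ind X x * ind Y x := by
  by_cases hX : x ∈ X <;> by_cases hY : x ∈ Y <;>
    simp [ind, hX, hY]

theorem ind_sq (X : Set G) (x : G) : ind X x * ind X x = ind X x := by
  by_cases hX : x ∈ X <;> simp [ind, hX]

/-- Translation invariant finitely additive means on `G`, as functionals on all functions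
(with value `0` on unbounded functions). -/
structure IsMean (m : (G → ℝ) → ℝ) : Prop where
  add : ∀ f g, Bdd f → Bdd g → m (fun x => f x + g x) = m f + m g
  smul : ∀ (c : ℝ) (f), Bdd f → m (fun x => c * f x) = c * m f
  nonneg : ∀ f, Bdd f → (∀ x, 0 ≤ f x) → 0 ≤ m f
  one : m (fun _ => 1) = 1
  inv : ∀ (h : G) (f), Bdd f → m (fun x => f (x + h)) = m f
  junk : ∀ f, ¬ Bdd f → m f = 0

namespace IsMean

variable {m : (G → ℝ) → ℝ}

theorem const (hm : IsMean m) (c : ℝ) : m (fun _ => c) = c := by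
  have := hm.smul c (fun _ => 1) (Bdd.const 1)
  simpa [hm.one] using this

theorem neg (hm : IsMean m) {f : G → ℝ} (hf : Bdd f) : m (fun x => - f x) = - m f := by
  have := hm.smul (-1) f hf
  simpa using this

theorem sub (hm : IsMean m) {f g : G → ℝ} (hf : Bdd f) (hg : Bdd g) :
    m (fun x => f x - g x) = m f - m g := by
  have := hm.add f (fun x => - g x) hf hg.neg
  rw [hm.neg hg] at this
  simpa [sub_eq_add_neg] using this

theorem mono (hm : IsMean m) {f g : G → ℝ} (hf : Bdd f) (hg : Bdd g) (h : ∀ x, f x ≤ g x) :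
    m f ≤ m g := by
  have := hm.nonneg (fun x => g x - f x) (hg.sub hf) (fun x => sub_nonneg.mpr (h x))
  rw [hm.sub hg hf] at this
  linarith

theorem le_of_le (hm : IsMean m) {f : G → ℝ} (hf : Bdd f) {c : ℝ} (h : ∀ x, f x ≤ c) :
    m f ≤ c := by
  have := hm.mono hf (Bdd.const c) h
  rwa [hm.const] at this

theorem ge_of_ge (hm : IsMean m) {f : G → ℝ} (hf : Bdd f) {c : ℝ} (h : ∀ x, c ≤ f x) :
    c ≤ m f := by
  have := hm.mono (Bdd.const c) hf h
  rwa [hm.const] at this

theorem abs_le (hm : IsMean m) {f : G → ℝ} {C : ℝ} (h : ∀ x, |f x| ≤ C) : |m f| ≤ C := by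
  rw [_root_.abs_le]
  exact ⟨hm.ge_of_ge ⟨C, h⟩ (fun x => (_root_.abs_le.mp (h x)).1),
    hm.le_of_le ⟨C, h⟩ (fun x => (_root_.abs_le.mp (h x)).2)⟩

theorem sum (hm : IsMean m) {ι : Type*} (s : Finset ι) {F : ι → G → ℝ}
    (hF : ∀ i ∈ s, Bdd (F i)) : m (fun x => ∑ i ∈ s, F i x) = ∑ i ∈ s, m (F i) := by
  classical
  induction s using Finset.induction_on with
  | empty => simpa using hm.const 0
  | insert a s ha ih =>
    have h1 := hF a (Finset.mem_insert_self a s)
    have h2 : ∀ i ∈ s, Bdd (F i) := fun i hi => hF i (Finset.mem_insert_of_mem hi)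
    have := hm.add (F a) (fun x => ∑ i ∈ s, F i x) h1 (Bdd.sum s h2)
    simp only [Finset.sum_insert ha]
    rw [this, ih h2]

theorem zero (hm : IsMean m) : m (fun _ => 0) = 0 := hm.const 0

theorem mul_const (hm : IsMean m) (c : ℝ) {f : G → ℝ} (hf : Bdd f) :
    m (fun x => f x * c) = m f * c := by
  have := hm.smul c f hf
  simpa [mul_comm] using this

theorem div_const (hm : IsMean m) (c : ℝ) {f : G → ℝ} (hf : Bdd f) :
    m (fun x => f x / c) = m f / c := by
  have := hm.mul_const c⁻¹ hf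
  simpa [div_eq_mul_inv] using this

/-- Points have mean zero. -/
theorem ind_singleton (hm : IsMean m) (a : G) : m (ind {a}) = 0 := by
  have h0 : 0 ≤ m (ind {a}) := hm.nonneg _ (ind_bdd _) (ind_nonneg _)
  by_contra hne
  have hpos : 0 < m (ind {a}) := lt_of_le_of_ne h0 (Ne.symm hne)
  obtain ⟨n, hn⟩ := exists_nat_gt (1 / m (ind {a}))
  -- n translates
  have hinv : ∀ i : ℕ, m (ind {a - Finsupp.single i 1}) = m (ind {a}) := by
    intro i
    have := hm.inv (Finsupp.single i 1) (ind {a}) (ind_bdd _)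
    rw [← this]
    congr 1
    funext x
    by_cases hx : x = a - Finsupp.single i 1
    · rw [ind_of_mem (by simp [hx]), ind_of_mem (by simp [hx])]
    · rw [ind_of_notMem (by simpa using hx), ind_of_notMem]
      simp only [Set.mem_singleton_iff]
      intro h
      exact hx (eq_sub_of_add_eq h)
  have hsum := hm.sum (Finset.range n) (F := fun i => ind {a - Finsupp.single i 1})
    (fun i _ => ind_bdd _)
  simp only [hinv, Finset.sum_const, Finset.card_range, nsmul_eq_mul] at hsum
  have hle : m (fun x => ∑ i ∈ Finset.range n, ind {a - Finsupp.single i (1 : ZMod 7)} x) ≤ 1 := by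
    apply hm.le_of_le (Bdd.sum _ (fun i _ => ind_bdd _))
    intro x
    by_cases hx : ∃ i ∈ Finset.range n, x = a - Finsupp.single i (1 : ZMod 7)
    · obtain ⟨i, hi, hxi⟩ := hx
      rw [Finset.sum_eq_single_of_mem i hi]
      · exact ind_le_one _ _
      · intro j _ hji
        apply ind_of_notMem
        simp only [Set.mem_singleton_iff]
        intro h
        rw [hxi] at h
        have h2 : Finsupp.single i (1 : ZMod 7) = Finsupp.single j 1 := by
          exact sub_right_injective h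
        have h3 := DFunLike.congr_fun h2 j
        rw [Finsupp.single_eq_same, Finsupp.single_apply, if_neg (Ne.symm hji)] at h3
        exact absurd h3 (by decide)
    · rw [Finset.sum_eq_zero]
      · norm_num
      · intro i hi
        apply ind_of_notMem
        simp only [Set.mem_singleton_iff]
        intro h
        exact hx ⟨i, hi, h⟩
  rw [hsum] at hle
  have : 1 < n * m (ind {a}) := by
    rw [div_lt_iff₀ hpos] at hn
    exact hn
  linarith

end IsMean

end Pool.Agent.NH77.BB
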