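import Mathlib
import Pool.Agent.NH77.BB.Mean

set_option autoImplicit false

namespace Pool.Agent.NH77.BB

open Filter Topology

/-! ### Ultrafilter limits of bounded real sequences -/

/-- Limit along an ultrafilter. -/
noncomputable def ulim (U : Ultrafilter ℕ) (a : ℕ → ℝ) : ℝ := limUnder (U : Filter ℕ) a

theorem tendsto_ulim (U : Ultrafilter ℕ) {a : ℕ → ℝ} {C : ℝ} (h : ∀ n, |a n| ≤ C) :
    Tendsto a U (𝓝 (ulim U a)) := by
  apply tendsto_nhds_limUnder
  have hc : IsCompact (Set.Icc (-C) C) := isCompact_Icc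
  obtain ⟨x, _, hx⟩ := hc.ultrafilter_le_nhds (U.map a) (by
    rw [le_principal_iff]
    rw [Ultrafilter.mem_coe, Ultrafilter.mem_map]
    apply Filter.univ_mem'
    intro n
    exact abs_le.mp (h n))
  exact ⟨x, hx⟩

theorem ulim_eq (U : Ultrafilter ℕ) {a : ℕ → ℝ} {L : ℝ} (h : Tendsto a U (𝓝 L)) :
    ulim U a = L := h.limUnder_eq

/-! ### Finite subgroups and averages -/

/-- The embedding of `(ZMod 7)^k` into `G`. -/
noncomputable def emb (k : ℕ) (v : Fin k → ZMod 7) : G :=
  ∑ i : Fin k, Finsupp.single (i : ℕ) (v i)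

theorem emb_add (k : ℕ) (v w : Fin k → ZMod 7) : emb k (v + w) = emb k v + emb k w := by
  simp [emb, Finset.sum_add_distrib]

theorem emb_zero (k : ℕ) : emb k 0 = 0 := by simp [emb]

theorem emb_neg (k : ℕ) (v : Fin k → ZMod 7) : emb k (-v) = - emb k v := by
  have := emb_add k v (-v)
  rw [add_neg_cancel, emb_zero] at this
  exact (neg_eq_of_add_eq_zero_right this.symm).symm

theorem emb_sub (k : ℕ) (v w : Fin k → ZMod 7) : emb k (v - w) = emb k v - emb k w := by
  rw [sub_eq_add_neg, emb_add, emb_neg, sub_eq_add_neg]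

theorem emb_apply (k : ℕ) (v : Fin k → ZMod 7) (j : ℕ) :
    emb k v j = if h : j < k then v ⟨j, h⟩ else 0 := by
  classical
  rw [emb, Finsupp.finsetSum_apply]
  split_ifs with h
  · rw [Finset.sum_eq_single_of_mem (⟨j, h⟩ : Fin k) (Finset.mem_univ _)]
    · simp
    · intro i _ hi
      rw [Finsupp.single_apply, if_neg]
      intro h'
      exact hi (Fin.ext h')
  · apply Finset.sum_eq_zero
    intro i _
    rw [Finsupp.single_apply, if_neg]
    intro h'
    exact h (h' ▸ i.2)

theorem exists_emb (g : G) : ∃ k0, ∀ k, k0 ≤ k → ∃ v, emb k v = g := by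
  refine ⟨g.support.sup id + 1, fun k hk => ⟨fun i => g i, ?_⟩⟩
  ext j
  rw [emb_apply]
  split_ifs with h
  · rfl
  · symm
    by_contra hne
    have hj : j ∈ g.support := Finsupp.mem_support_iff.mpr hne
    have := Finset.le_sup (f := id) hj
    simp only [id] at this
    omega

/-- Average over `(ZMod 7)^k`. -/
noncomputable def avg (k : ℕ) (F : (Fin k → ZMod 7) → ℝ) : ℝ := (∑ v, F v) / 7 ^ k

theorem card_V (k : ℕ) : Fintype.card (Fin k → ZMod 7) = 7 ^ k := by
  simp [ZMod.card]

theorem avg_const (k : ℕ) (c : ℝ) : avg k (fun _ => c) = c := by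
  simp only [avg, Finset.sum_const, Finset.card_univ, card_V, nsmul_eq_mul]
  push_cast
  field_simp

theorem avg_add (k : ℕ) (F H : (Fin k → ZMod 7) → ℝ) :
    avg k (fun v => F v + H v) = avg k F + avg k H := by
  simp [avg, Finset.sum_add_distrib, add_div]

theorem avg_mul_left (k : ℕ) (c : ℝ) (F : (Fin k → ZMod 7) → ℝ) :
    avg k (fun v => c * F v) = c * avg k F := by
  simp [avg, ← Finset.mul_sum, mul_div_assoc]

theorem avg_sub (k : ℕ) (F H : (Fin k → ZMod 7) → ℝ) :
    avg k (fun v => F v - H v) = avg k F - avg k H := by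
  simp [avg, Finset.sum_sub_distrib, sub_div]

theorem avg_mono (k : ℕ) {F H : (Fin k → ZMod 7) → ℝ} (h : ∀ v, F v ≤ H v) :
    avg k F ≤ avg k H := by
  unfold avg
  gcongr with v
  exact h v

theorem avg_le (k : ℕ) {F : (Fin k → ZMod 7) → ℝ} {c : ℝ} (h : ∀ v, F v ≤ c) :
    avg k F ≤ c := by
  have := avg_mono k (F := F) (H := fun _ => c) h
  rwa [avg_const] at this

theorem le_avg (k : ℕ) {F : (Fin k → ZMod 7) → ℝ} {c : ℝ} (h : ∀ v, c ≤ F v) :
    c ≤ avg k F := by
  have := avg_mono k (F := fun _ => c) (H := F) h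
  rwa [avg_const] at this

theorem avg_shift (k : ℕ) (F : (Fin k → ZMod 7) → ℝ) (w : Fin k → ZMod 7) :
    avg k (fun v => F (v + w)) = avg k F := by
  unfold avg
  rw [← Equiv.sum_comp (Equiv.addRight w) F]
  rfl

theorem avg_neg (k : ℕ) (F : (Fin k → ZMod 7) → ℝ) :
    avg k (fun v => F (-v)) = avg k F := by
  unfold avg
  rw [← Equiv.sum_comp (Equiv.neg _) F]
  rfl

theorem Bdd.avg {k : ℕ} {F : (Fin k → ZMod 7) → G → ℝ} (hF : ∀ v, Bdd (F v)) :
    Bdd (fun x => BB.avg k (fun v => F v x)) := by
  unfold BB.avg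
  have := (Bdd.sum Finset.univ (fun v _ => hF v)).mul (Bdd.const ((7:ℝ) ^ k)⁻¹)
  simpa [div_eq_mul_inv] using this

theorem IsMean.avg {m : (G → ℝ) → ℝ} (hm : IsMean m) {k : ℕ}
    {F : (Fin k → ZMod 7) → G → ℝ} (hF : ∀ v, Bdd (F v)) :
    m (fun x => BB.avg k (fun v => F v x)) = BB.avg k (fun v => m (F v)) := by
  unfold BB.avg
  rw [hm.div_const _ (Bdd.sum _ (fun v _ => hF v)), hm.sum _ (fun v _ => hF v)]

/-! ### The compact convex set of means and its extreme points -/

/-- The set of all translation invariant means. -/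
def Means : Set ((G → ℝ) → ℝ) := {m | IsMean m}

theorem isClosed_means : IsClosed Means := by
  have h1 : IsClosed {m : (G → ℝ) → ℝ | ∀ f g, Bdd f → Bdd g →
      m (fun x => f x + g x) = m f + m g} := by
    simp only [Set.ofPred_forall]
    exact isClosed_iInter fun f => isClosed_iInter fun g => isClosed_iInter fun _ =>
      isClosed_iInter fun _ =>
        isClosed_eq (continuous_apply _) (by fun_prop)
  have h2 : IsClosed {m : (G → ℝ) → ℝ | ∀ (c : ℝ) (f), Bdd f →
      m (fun x => c * f x) = c * m f} := by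
    simp only [Set.ofPred_forall]
    exact isClosed_iInter fun c => isClosed_iInter fun f => isClosed_iInter fun _ =>
        isClosed_eq (continuous_apply _) (continuous_const.mul (continuous_apply _))
  have h3 : IsClosed {m : (G → ℝ) → ℝ | ∀ f, Bdd f → (∀ x, 0 ≤ f x) → 0 ≤ m f} := by
    simp only [Set.ofPred_forall]
    exact isClosed_iInter fun f => isClosed_iInter fun _ => isClosed_iInter fun _ =>
        isClosed_le continuous_const (continuous_apply _)
  have h4 : IsClosed {m : (G → ℝ) → ℝ | m (fun _ => 1) = 1} :=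
    isClosed_eq (continuous_apply _) continuous_const
  have h5 : IsClosed {m : (G → ℝ) → ℝ | ∀ (h : G) (f), Bdd f →
      m (fun x => f (x + h)) = m f} := by
    simp only [Set.ofPred_forall]
    exact isClosed_iInter fun h => isClosed_iInter fun f => isClosed_iInter fun _ =>
        isClosed_eq (continuous_apply _) (continuous_apply _)
  have h6 : IsClosed {m : (G → ℝ) → ℝ | ∀ f, ¬ Bdd f → m f = 0} := by
    simp only [Set.ofPred_forall]
    exact isClosed_iInter fun f => isClosed_iInter fun _ =>
        isClosed_eq (continuous_apply _) continuous_const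
  have : Means = {m : (G → ℝ) → ℝ | ∀ f g, Bdd f → Bdd g →
      m (fun x => f x + g x) = m f + m g} ∩ {m : (G → ℝ) → ℝ | ∀ (c : ℝ) (f), Bdd f →
      m (fun x => c * f x) = c * m f} ∩ {m : (G → ℝ) → ℝ | ∀ f, Bdd f → (∀ x, 0 ≤ f x) → 0 ≤ m f}
      ∩ {m : (G → ℝ) → ℝ | m (fun _ => 1) = 1} ∩ {m : (G → ℝ) → ℝ | ∀ (h : G) (f), Bdd f →
      m (fun x => f (x + h)) = m f} ∩ {m : (G → ℝ) → ℝ | ∀ f, ¬ Bdd f → m f = 0} := by
    ext m
    constructor
    · intro h
      exact ⟨⟨⟨⟨⟨h.add, h.smul⟩, h.nonneg⟩, h.one⟩, h.inv⟩, h.junk⟩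
    · rintro ⟨⟨⟨⟨⟨a, b⟩, c⟩, d⟩, e⟩, f⟩
      exact ⟨a, b, c, d, e, f⟩
  rw [this]
  exact ((((h1.inter h2).inter h3).inter h4).inter h5).inter h6

open Classical in
theorem isCompact_means : IsCompact Means := by
  let B : (G → ℝ) → ℝ := fun f => if h : Bdd f then Classical.choose h else 0
  have hcomp : IsCompact (Set.univ.pi (fun f : G → ℝ => Set.Icc (-(B f)) (B f))) :=
    isCompact_univ_pi (fun f => isCompact_Icc)
  refine hcomp.of_isClosed_subset isClosed_means ?_
  intro m hm f _
  have hm' : IsMean m := hm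
  rw [Set.mem_Icc, ← abs_le]
  by_cases h : Bdd f
  · have : B f = Classical.choose h := by simp [B, h]
    rw [this]
    exact hm'.abs_le (Classical.choose_spec h)
  · have : B f = 0 := by simp [B, h]
    rw [this, hm'.junk f h]
    simp

/-- A mean that is an extreme point, with `m f₀` at least as large as for a given mean. -/
theorem exists_extreme {m₀ : (G → ℝ) → ℝ} (hm₀ : IsMean m₀) (f₀ : G → ℝ) :
    ∃ m ∈ Means.extremePoints ℝ, m₀ f₀ ≤ m f₀ := by
  obtain ⟨m1, hm1, hmax⟩ := isCompact_means.exists_isMaxOn ⟨m₀, hm₀⟩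
    (f := fun m : (G → ℝ) → ℝ => m f₀) (continuous_apply f₀).continuousOn
  have hF : IsCompact (Means ∩ {m : (G → ℝ) → ℝ | m f₀ = m1 f₀}) :=
    isCompact_means.inter_right (isClosed_eq (continuous_apply _) continuous_const)
  obtain ⟨m, hm⟩ := hF.extremePoints_nonempty ⟨m1, hm1, rfl⟩
  rw [mem_extremePoints_iff_left] at hm
  obtain ⟨⟨hmM, hmf⟩, hext⟩ := hm
  refine ⟨m, ?_, ?_⟩
  · rw [mem_extremePoints_iff_left]
    refine ⟨hmM, fun x1 hx1 x2 hx2 hseg => ?_⟩
    obtain ⟨a, b, ha, hb, hab, hsum⟩ := hseg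
    have h1 : x1 f₀ ≤ m1 f₀ := hmax hx1
    have h2 : x2 f₀ ≤ m1 f₀ := hmax hx2
    have h3 : a * x1 f₀ + b * x2 f₀ = m1 f₀ := by
      have := congrFun hsum f₀
      simp only [Pi.add_apply, Pi.smul_apply, smul_eq_mul] at this
      rw [this]
      exact hmf
    have h4 : x1 f₀ = m1 f₀ := by
      by_contra hne
      have hlt : x1 f₀ < m1 f₀ := lt_of_le_of_ne h1 hne
      have : a * x1 f₀ + b * x2 f₀ < a * m1 f₀ + b * m1 f₀ := by
        have e1 : a * x1 f₀ < a * m1 f₀ := mul_lt_mul_of_pos_left hlt ha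
        have e2 : b * x2 f₀ ≤ b * m1 f₀ := mul_le_mul_of_nonneg_left h2 hb.le
        linarith
      rw [h3, ← add_mul, hab, one_mul] at this
      exact lt_irrefl _ this
    have h5 : x2 f₀ = m1 f₀ := by
      rw [h4] at h3
      have : b * x2 f₀ = b * m1 f₀ := by
        have : m1 f₀ = a * m1 f₀ + b * m1 f₀ := by rw [← add_mul, hab, one_mul]
        linarith
      exact mul_left_cancel₀ hb.ne' this
    exact hext x1 ⟨hx1, h4⟩ x2 ⟨hx2, h5⟩ ⟨a, b, ha, hb, hab, hsum⟩
  · have : m₀ f₀ ≤ m1 f₀ := hmax (show m₀ ∈ Means from hm₀)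
    rw [hmf]
    exact this

/-! ### Ergodicity of extreme means -/

/-- The nonprincipal ultrafilter used for limits over `k`. -/
noncomputable abbrev UU : Ultrafilter ℕ := Filter.hyperfilter ℕ

theorem UU_le : (UU : Filter ℕ) ≤ atTop := Nat.hyperfilter_le_atTop

theorem erg_aux {m : (G → ℝ) → ℝ} (hext : m ∈ Means.extremePoints ℝ) {u : G → ℝ}
    (h0 : ∀ x, 0 ≤ u x) (h1 : ∀ x, u x ≤ 1) {w : G → ℝ} (hw : Bdd w) :
    Tendsto (fun k => m (fun x => w x * avg k (fun v => u (x + emb k v)))) UU
      (𝓝 (m u * m w)) := by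
  classical
  have hm : IsMean m := hext.1
  have hu : Bdd u := Bdd.of_mem_Icc h0 h1
  set V : ℕ → G → ℝ := fun k x => avg k (fun v => u (x + emb k v)) with hV
  have hV0 : ∀ k x, 0 ≤ V k x := fun k x => le_avg k (fun v => h0 _)
  have hV1 : ∀ k x, V k x ≤ 1 := fun k x => avg_le k (fun v => h1 _)
  have hVb : ∀ k, Bdd (V k) := fun k => Bdd.of_mem_Icc (hV0 k) (hV1 k)
  have hmV : ∀ k, m (V k) = m u := by
    intro k
    have := hm.avg (k := k) (F := fun v x => u (x + emb k v)) (fun v => hu.comp _)
    simp only [hV]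
    rw [this]
    have : (fun v => m (fun x => u (x + emb k v))) = fun _ => m u := by
      funext v
      exact hm.inv (emb k v) u hu
    rw [this, avg_const]
  have hlim : ∀ {w : G → ℝ}, Bdd w → Tendsto (fun k => m (fun x => w x * V k x)) UU
      (𝓝 (ulim UU (fun k => m (fun x => w x * V k x)))) := by
    intro w hw
    obtain ⟨C, hC⟩ := hw
    apply tendsto_ulim (C := C)
    intro k
    apply hm.abs_le
    intro x
    rw [abs_mul]
    calc |w x| * |V k x| ≤ C * 1 := by
          apply mul_le_mul (hC x) _ (abs_nonneg _) ((abs_nonneg _).trans (hC x))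
          rw [abs_of_nonneg (hV0 k x)]; exact hV1 k x
      _ = C := mul_one C
  set L : (G → ℝ) → ℝ := fun w => if Bdd w then ulim UU (fun k => m (fun x => w x * V k x)) else 0
    with hL
  have hLt : ∀ {w : G → ℝ}, Bdd w → Tendsto (fun k => m (fun x => w x * V k x)) UU (𝓝 (L w)) := by
    intro w hw
    have : L w = ulim UU (fun k => m (fun x => w x * V k x)) := by simp [hL, hw]
    rw [this]
    exact hlim hw
  have hLu : ∀ {w : G → ℝ} {l : ℝ}, Bdd w →
      Tendsto (fun k => m (fun x => w x * V k x)) UU (𝓝 l) → L w = l := by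
    intro w l hw hl
    exact tendsto_nhds_unique (hLt hw) hl
  -- properties of L
  have L_add : ∀ f g, Bdd f → Bdd g → L (fun x => f x + g x) = L f + L g := by
    intro f g hf hg
    apply hLu (hf.add hg)
    have := (hLt hf).add (hLt hg)
    refine this.congr (fun k => ?_)
    rw [← hm.add _ _ (hf.mul (hVb k)) (hg.mul (hVb k))]
    congr 1
    funext x
    ring
  have L_smul : ∀ (c : ℝ) (f), Bdd f → L (fun x => c * f x) = c * L f := by
    intro c f hf
    apply hLu (hf.smul c)
    have := (hLt hf).const_mul c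
    refine this.congr (fun k => ?_)
    rw [← hm.smul _ _ (hf.mul (hVb k))]
    congr 1
    funext x
    ring
  have L_nonneg : ∀ f, Bdd f → (∀ x, 0 ≤ f x) → 0 ≤ L f := by
    intro f hf h
    refine ge_of_tendsto' (hLt hf) (fun k => ?_)
    exact hm.nonneg _ (hf.mul (hVb k)) (fun x => mul_nonneg (h x) (hV0 k x))
  have L_one : L (fun _ => 1) = m u := by
    apply hLu (Bdd.const 1)
    refine tendsto_const_nhds.congr (fun k => ?_)
    rw [← hmV k]
    congr 1
    funext x
    ring
  have L_inv : ∀ (h : G) (f), Bdd f → L (fun x => f (x + h)) = L f := by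
    intro h f hf
    apply hLu (hf.comp _)
    have h2 := hLt hf
    refine h2.congr' ?_
    obtain ⟨k0, hk0⟩ := exists_emb h
    have : ∀ᶠ k in (UU : Filter ℕ), k0 ≤ k := UU_le (eventually_ge_atTop k0)
    filter_upwards [this] with k hk
    obtain ⟨w, hw⟩ := hk0 k hk
    have hshift : ∀ x, V k (x + h) = V k x := by
      intro x
      simp only [hV]
      rw [← avg_shift k (fun v => u (x + emb k v)) w]
      congr 1
      funext v
      rw [emb_add, hw]
      congr 1
      abel
    have := hm.inv h (fun x => f x * V k x) (hf.mul (hVb k))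
    rw [← this]
    congr 1
    funext x
    rw [hshift]
  have L_junk : ∀ f, ¬ Bdd f → L f = 0 := by
    intro f hf
    simp [hL, hf]
  have L_bound : ∀ {w : G → ℝ} {C : ℝ}, (∀ x, |w x| ≤ C) → ∀ k,
      |m (fun x => w x * V k x)| ≤ C * m u := by
    intro w C hC k
    have hwb : Bdd w := ⟨C, hC⟩
    rw [abs_le]
    constructor
    · have : -(C * m u) = m (fun x => (-C) * V k x) := by
        rw [hm.smul _ _ (hVb k), hmV]; ring
      rw [this]
      apply hm.mono ((hVb k).smul _) (hwb.mul (hVb k))
      intro x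
      exact mul_le_mul_of_nonneg_right (abs_le.mp (hC x)).1 (hV0 k x)
    · have : (C * m u) = m (fun x => C * V k x) := by
        rw [hm.smul _ _ (hVb k), hmV]
      rw [this]
      apply hm.mono (hwb.mul (hVb k)) ((hVb k).smul _)
      intro x
      exact mul_le_mul_of_nonneg_right (abs_le.mp (hC x)).2 (hV0 k x)
  have hmu0 : 0 ≤ m u := hm.nonneg u hu h0
  have hmu1 : m u ≤ 1 := hm.le_of_le hu h1
  -- the key identity
  have key : L w = m u * m w := by
    rcases eq_or_lt_of_le hmu0 with ht0 | ht0
    · -- m u = 0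
      obtain ⟨C, hC⟩ := hw
      have hz : ∀ k, m (fun x => w x * V k x) = 0 := by
        intro k
        have := L_bound hC k
        rw [← ht0, mul_zero] at this
        exact abs_eq_zero.mp (le_antisymm this (abs_nonneg _))
      rw [hLu ⟨C, hC⟩ (l := 0) (tendsto_const_nhds.congr (fun k => (hz k).symm)), ← ht0, zero_mul]
    rcases eq_or_lt_of_le hmu1 with ht1 | ht1
    · -- m u = 1
      obtain ⟨C, hC⟩ := hw
      have hwb : Bdd w := ⟨C, hC⟩
      have hz : ∀ k, m (fun x => w x * V k x) = m w := by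
        intro k
        have e1 : m (fun x => w x * (1 - V k x)) = 0 := by
          have hb1 : Bdd (fun x => (1 - V k x)) := (Bdd.const 1).sub (hVb k)
          have hm1 : m (fun x => (1 - V k x)) = 0 := by
            rw [hm.sub (Bdd.const 1) (hVb k), hm.one, hmV, ht1]; ring
          apply le_antisymm
          · have : (0:ℝ) = m (fun x => C * (1 - V k x)) := by
              rw [hm.smul _ _ hb1, hm1, mul_zero]
            rw [this]
            apply hm.mono (hwb.mul hb1) (hb1.smul _)
            intro x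
            exact mul_le_mul_of_nonneg_right (abs_le.mp (hC x)).2 (by linarith [hV1 k x])
          · have : (0:ℝ) = m (fun x => (-C) * (1 - V k x)) := by
              rw [hm.smul _ _ hb1, hm1, mul_zero]
            rw [this]
            apply hm.mono (hb1.smul _) (hwb.mul hb1)
            intro x
            exact mul_le_mul_of_nonneg_right (abs_le.mp (hC x)).1 (by linarith [hV1 k x])
        have e2 : (fun x => w x * V k x) = fun x => w x - w x * (1 - V k x) := by
          funext x; ring
        rw [e2, hm.sub hwb (hwb.mul ((Bdd.const 1).sub (hVb k))), e1, sub_zero]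
      rw [hLu hwb (l := m w) (tendsto_const_nhds.congr (fun k => (hz k).symm)), ht1, one_mul]
    · have hM1 : IsMean (fun w => L w / m u) := by
        refine ⟨?_, ?_, ?_, ?_, ?_, ?_⟩
        · intro f g hf hg
          show L (fun x => f x + g x) / m u = L f / m u + L g / m u
          rw [L_add f g hf hg, add_div]
        · intro c f hf
          show L (fun x => c * f x) / m u = c * (L f / m u)
          rw [L_smul c f hf, mul_div_assoc]
        · intro f hf h
          exact div_nonneg (L_nonneg f hf h) hmu0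
        · show L (fun _ => 1) / m u = 1
          rw [L_one, div_self ht0.ne']
        · intro h f hf
          show L (fun x => f (x + h)) / m u = L f / m u
          rw [L_inv h f hf]
        · intro f hf
          show L f / m u = 0
          rw [L_junk f hf, zero_div]
      have hM2 : IsMean (fun w => (m w - L w) / (1 - m u)) := by
        have hpos : 0 < 1 - m u := by linarith
        refine ⟨?_, ?_, ?_, ?_, ?_, ?_⟩
        · intro f g hf hg
          show (m (fun x => f x + g x) - L (fun x => f x + g x)) / (1 - m u) =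
            (m f - L f) / (1 - m u) + (m g - L g) / (1 - m u)
          rw [L_add f g hf hg, hm.add f g hf hg]
          ring
        · intro c f hf
          show (m (fun x => c * f x) - L (fun x => c * f x)) / (1 - m u) =
            c * ((m f - L f) / (1 - m u))
          rw [L_smul c f hf, hm.smul c f hf]
          ring
        · intro f hf h
          apply div_nonneg _ hpos.le
          rw [sub_nonneg]
          refine le_of_tendsto' (hLt hf) (fun k => ?_)
          apply hm.mono (hf.mul (hVb k)) hf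
          intro x
          calc f x * V k x ≤ f x * 1 := mul_le_mul_of_nonneg_left (hV1 k x) (h x)
            _ = f x := mul_one _
        · show (m (fun _ => 1) - L (fun _ => 1)) / (1 - m u) = 1
          rw [L_one, hm.one, div_self hpos.ne']
        · intro h f hf
          show (m (fun x => f (x + h)) - L (fun x => f (x + h))) / (1 - m u) =
            (m f - L f) / (1 - m u)
          rw [L_inv h f hf, hm.inv h f hf]
        · intro f hf
          show (m f - L f) / (1 - m u) = 0
          rw [L_junk f hf, hm.junk f hf]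
          simp
      have hseg : m ∈ openSegment ℝ (fun w => L w / m u) (fun w => (m w - L w) / (1 - m u)) := by
        refine ⟨m u, 1 - m u, ht0, by linarith, by ring, ?_⟩
        funext f
        simp only [Pi.add_apply, Pi.smul_apply, smul_eq_mul]
        have h1 : (1 - m u) ≠ 0 := by linarith
        have h2 : m u ≠ 0 := ht0.ne'
        field_simp
        ring
      have := (mem_extremePoints_iff_left.mp hext).2 _ hM1 _ hM2 hseg
      have h3 := congrFun this w
      rw [div_eq_iff ht0.ne'] at h3
      rw [h3, mul_comm]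
  rw [← key]
  exact hLt hw

/-- Ergodicity: averages of autocorrelations of an extreme mean. -/
theorem erg {m : (G → ℝ) → ℝ} (hext : m ∈ Means.extremePoints ℝ) {u : G → ℝ} (hu : Bdd u) :
    Tendsto (fun k => avg k (fun v => m (fun x => u x * u (x + emb k v)))) UU
      (𝓝 (m u ^ 2)) := by
  have hm : IsMean m := hext.1
  -- first for functions with values in [0,1]
  have h01 : ∀ {u : G → ℝ}, (∀ x, 0 ≤ u x) → (∀ x, u x ≤ 1) →
      Tendsto (fun k => avg k (fun v => m (fun x => u x * u (x + emb k v)))) UU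
      (𝓝 (m u ^ 2)) := by
    intro u h0 h1
    have hu : Bdd u := Bdd.of_mem_Icc h0 h1
    have := erg_aux hext h0 h1 hu
    rw [← sq] at this
    refine this.congr (fun k => ?_)
    rw [← hm.avg (F := fun v x => u x * u (x + emb k v)) (fun v => hu.mul (hu.comp _))]
    congr 1
    funext x
    rw [avg_mul_left]
  obtain ⟨C, hC⟩ := hu
  have hu : Bdd u := ⟨C, hC⟩
  set D := |C| + 1 with hD
  have hDpos : 0 < D := by positivity
  have hCD : C ≤ D := by
    have := le_abs_self C
    linarith
  set u' : G → ℝ := fun x => (u x + D) / (2 * D) with hu'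
  have h0 : ∀ x, 0 ≤ u' x := by
    intro x
    apply div_nonneg _ (by linarith)
    have := (abs_le.mp (hC x)).1
    linarith
  have h1 : ∀ x, u' x ≤ 1 := by
    intro x
    rw [hu']
    simp only
    rw [div_le_one (by linarith)]
    have := (abs_le.mp (hC x)).2
    linarith
  have hu'b : Bdd u' := Bdd.of_mem_Icc h0 h1
  have huu : ∀ x, u x = 2 * D * u' x - D := by
    intro x
    simp only [hu']
    field_simp
    ring
  have hmu : m u = 2 * D * m u' - D := by
    have : u = fun x => 2 * D * u' x - D := funext huu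
    rw [this, hm.sub (hu'b.smul _) (Bdd.const _), hm.smul _ _ hu'b, hm.const]
  have hlim := h01 h0 h1
  have h2 : Tendsto (fun k => 4 * D ^ 2 * avg k (fun v => m (fun x => u' x * u' (x + emb k v)))
      - 4 * D ^ 2 * m u' + D ^ 2) UU (𝓝 (4 * D ^ 2 * m u' ^ 2 - 4 * D ^ 2 * m u' + D ^ 2)) :=
    ((hlim.const_mul _).sub_const _).add_const _
  have h3 : m u ^ 2 = 4 * D ^ 2 * m u' ^ 2 - 4 * D ^ 2 * m u' + D ^ 2 := by
    rw [hmu]; ring
  rw [h3]
  refine h2.congr (fun k => ?_)
  rw [← avg_mul_left, ← avg_const k (4 * D ^ 2 * m u'), ← avg_sub, ← avg_const k (D ^ 2),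
    ← avg_add]
  congr 1
  funext v
  have e : (fun x => u x * u (x + emb k v)) = fun x => (4 * D ^ 2) * (u' x * u' (x + emb k v))
      - (2 * D ^ 2 * u' x + 2 * D ^ 2 * u' (x + emb k v)) + D ^ 2 := by
    funext x
    rw [huu x, huu (x + emb k v)]
    ring
  have hb1 : Bdd (fun x => u' (x + emb k v)) := hu'b.comp _
  rw [e, hm.add _ _ ((((hu'b.mul hb1).smul _)).sub ((hu'b.smul _).add (hb1.smul _))) (Bdd.const _),
    hm.sub ((hu'b.mul hb1).smul _) ((hu'b.smul _).add (hb1.smul _)),
    hm.add _ _ (hu'b.smul _) (hb1.smul _), hm.smul _ _ (hu'b.mul hb1), hm.smul _ _ hu'b,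
    hm.smul _ _ hb1, hm.inv (emb k v) u' hu'b, hm.const, avg_const]
  ring

end Pool.Agent.NH77.BB
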