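import Mathlib
import Pool.Agent.NH77.BB.Erg

set_option autoImplicit false

namespace Pool.Agent.NH77.BB

open Filter Topology

/-! ### Trigonometric functions on `ZMod 7` -/

/-- Real part of the standard additive character of `ZMod 7`. -/
noncomputable def ce (t : ZMod 7) : ℝ := (ZMod.stdAddChar (N := 7) t).re

/-- Imaginary part of the standard additive character of `ZMod 7`. -/
noncomputable def se (t : ZMod 7) : ℝ := (ZMod.stdAddChar (N := 7) t).im

theorem ce_add (a b : ZMod 7) : ce (a + b) = ce a * ce b - se a * se b := by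
  simp [ce, se, AddChar.map_add_eq_mul, Complex.mul_re]

theorem se_add (a b : ZMod 7) : se (a + b) = ce a * se b + se a * ce b := by
  simp [ce, se, AddChar.map_add_eq_mul, Complex.mul_im]

theorem ce_neg (a : ZMod 7) : ce (-a) = ce a := by
  simp [ce, AddChar.map_neg_eq_conj]

theorem se_neg (a : ZMod 7) : se (-a) = - se a := by
  simp [se, AddChar.map_neg_eq_conj]

theorem ce_zero : ce 0 = 1 := by simp [ce]

theorem ce_sub (a b : ZMod 7) : ce (a - b) = ce a * ce b + se a * se b := by
  rw [sub_eq_add_neg, ce_add, ce_neg, se_neg]; ring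

theorem ce_sq_add (a : ZMod 7) : ce a * ce a + se a * se a = 1 := by
  rw [← ce_sub, sub_self, ce_zero]

theorem abs_ce_le (a : ZMod 7) : |ce a| ≤ 1 := by
  rw [abs_le]
  constructor <;> nlinarith [ce_sq_add a, mul_self_nonneg (se a), mul_self_nonneg (ce a)]

theorem abs_se_le (a : ZMod 7) : |se a| ≤ 1 := by
  rw [abs_le]
  constructor <;> nlinarith [ce_sq_add a, mul_self_nonneg (se a), mul_self_nonneg (ce a)]

theorem sum_e_mul (r : ZMod 7) : ∑ t : ZMod 7, ZMod.stdAddChar (N := 7) (t * r) =
    if r = 0 then (7 : ℂ) else 0 := by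
  rw [AddChar.sum_mulShift r (ZMod.isPrimitive_stdAddChar 7)]
  split_ifs <;> simp [ZMod.card]

theorem sum_ce_mul (r : ZMod 7) : ∑ t : ZMod 7, ce (t * r) = if r = 0 then 7 else 0 := by
  have := congrArg Complex.re (sum_e_mul r)
  rw [Complex.re_sum] at this
  unfold ce
  rw [this]
  split_ifs <;> simp

theorem sum_se_mul (r : ZMod 7) : ∑ t : ZMod 7, se (t * r) = 0 := by
  have := congrArg Complex.im (sum_e_mul r)
  rw [Complex.im_sum] at this
  unfold se
  rw [this]
  split_ifs <;> simp

theorem sum_ce_add (a r : ZMod 7) :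
    ∑ t : ZMod 7, ce (a + t * r) = if r = 0 then 7 * ce a else 0 := by
  simp only [ce_add, Finset.sum_sub_distrib, ← Finset.mul_sum, sum_ce_mul, sum_se_mul]
  split_ifs <;> ring

theorem e_sum {ι : Type*} (s : Finset ι) (f : ι → ZMod 7) :
    ZMod.stdAddChar (N := 7) (∑ i ∈ s, f i) = ∏ i ∈ s, ZMod.stdAddChar (N := 7) (f i) := by
  classical
  induction s using Finset.induction_on with
  | empty => simp
  | insert a s ha ih => rw [Finset.sum_insert ha, Finset.prod_insert ha,
      AddChar.map_add_eq_mul, ih]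

/-- The dot product. -/
def dot {k : ℕ} (v c : Fin k → ZMod 7) : ZMod 7 := ∑ i, v i * c i

theorem dot_add {k : ℕ} (v w c : Fin k → ZMod 7) : dot (v + w) c = dot v c + dot w c := by
  simp [dot, add_mul, Finset.sum_add_distrib]

theorem dot_sub {k : ℕ} (v w c : Fin k → ZMod 7) : dot (v - w) c = dot v c - dot w c := by
  simp [dot, sub_mul, Finset.sum_sub_distrib]

theorem dot_zero {k : ℕ} (c : Fin k → ZMod 7) : dot 0 c = 0 := by simp [dot]

theorem orth (k : ℕ) (v : Fin k → ZMod 7) :
    ∑ c : Fin k → ZMod 7, ce (dot v c) = if v = 0 then (7:ℝ) ^ k else 0 := by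
  have h1 : ∑ c : Fin k → ZMod 7, ZMod.stdAddChar (N := 7) (dot v c) =
      if v = 0 then (7:ℂ) ^ k else 0 := by
    have h2 : ∀ c : Fin k → ZMod 7, ZMod.stdAddChar (N := 7) (dot v c) =
        ∏ i, ZMod.stdAddChar (N := 7) (c i * v i) := by
      intro c
      rw [dot, e_sum]
      simp only [mul_comm]
    simp only [h2]
    have h3 := Finset.prod_univ_sum (R := ℂ) (fun _ : Fin k => (Finset.univ : Finset (ZMod 7)))
      (fun i t => ZMod.stdAddChar (N := 7) (t * v i))
    rw [Fintype.piFinset_univ] at h3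
    rw [← h3]
    simp only [sum_e_mul]
    split_ifs with hv
    · simp [hv]
    · obtain ⟨i, hi⟩ := Function.ne_iff.mp hv
      apply Finset.prod_eq_zero (Finset.mem_univ i)
      exact if_neg hi
  have := congrArg Complex.re h1
  rw [Complex.re_sum] at this
  unfold ce
  rw [this]
  split_ifs
  · rw [← Complex.ofReal_ofNat, ← Complex.ofReal_pow, Complex.ofReal_re]
  · simp

/-- Fourier coefficients of an even function. -/
noncomputable def Pc {k : ℕ} (γ : (Fin k → ZMod 7) → ℝ) (c : Fin k → ZMod 7) : ℝ :=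
  avg k (fun v => γ v * ce (dot v c))

theorem Pc_inv {k : ℕ} (γ : (Fin k → ZMod 7) → ℝ) (heven : ∀ v, γ (-v) = γ v)
    (w : Fin k → ZMod 7) : ∑ c, Pc γ c * ce (dot w c) = γ w := by
  have h1 : ∀ v : Fin k → ZMod 7, ∑ c : Fin k → ZMod 7, ce (dot v c) * ce (dot w c) =
      ((if v = w then (7:ℝ) ^ k else 0) + (if v = -w then (7:ℝ) ^ k else 0)) / 2 := by
    intro v
    have e1 : ∀ c : Fin k → ZMod 7, ce (dot v c) * ce (dot w c) =
        (ce (dot (v - w) c) + ce (dot (v + w) c)) / 2 := by
      intro c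
      rw [dot_sub, dot_add, ce_sub, ce_add]
      ring
    simp only [e1]
    rw [← Finset.sum_div, Finset.sum_add_distrib, orth, orth]
    have h2 : (v - w = 0) ↔ (v = w) := sub_eq_zero
    have h3 : (v + w = 0) ↔ (v = -w) := add_eq_zero_iff_eq_neg
    simp only [h2, h3]
  calc ∑ c, Pc γ c * ce (dot w c)
      = ∑ c : Fin k → ZMod 7, ∑ v : Fin k → ZMod 7,
          γ v * ce (dot v c) * ce (dot w c) / 7 ^ k := by
        apply Finset.sum_congr rfl
        intro c _
        rw [Pc, avg, div_mul_eq_mul_div, Finset.sum_mul, Finset.sum_div]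
    _ = ∑ v : Fin k → ZMod 7, γ v / 7 ^ k *
          ∑ c : Fin k → ZMod 7, ce (dot v c) * ce (dot w c) := by
        rw [Finset.sum_comm]
        apply Finset.sum_congr rfl
        intro v _
        rw [Finset.mul_sum]
        apply Finset.sum_congr rfl
        intro c _
        ring
    _ = ∑ v : Fin k → ZMod 7, ((if v = w then γ v / 2 else 0) + (if v = -w then γ v / 2 else 0)) := by
        apply Finset.sum_congr rfl
        intro v _
        rw [h1]
        have h7 : (7:ℝ) ^ k ≠ 0 := by positivity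
        split_ifs <;> field_simp <;> ring
    _ = γ w := by
        rw [Finset.sum_add_distrib, Finset.sum_ite_eq' Finset.univ w,
          Finset.sum_ite_eq' Finset.univ (-w)]
        simp [heven]

theorem parseval_le {k : ℕ} (γ : (Fin k → ZMod 7) → ℝ) (heven : ∀ v, γ (-v) = γ v)
    {θ : ℝ} (h0 : ∀ c, 0 ≤ Pc γ c) (h1 : ∀ c, Pc γ c ≤ θ) :
    avg k (fun v => γ v ^ 2) ≤ θ * γ 0 := by
  have e1 : avg k (fun v => γ v ^ 2) = ∑ c, Pc γ c * Pc γ c := by
    have : (fun v => γ v ^ 2) = fun v => ∑ c, Pc γ c * (γ v * ce (dot v c)) := by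
      funext v
      have := Pc_inv γ heven v
      rw [sq]
      nth_rewrite 2 [← this]
      rw [Finset.mul_sum]
      apply Finset.sum_congr rfl
      intro c _
      ring
    rw [this, avg, Finset.sum_comm, Finset.sum_div]
    apply Finset.sum_congr rfl
    intro c _
    rw [← Finset.mul_sum, mul_div_assoc]
    rfl
  have e2 : ∑ c, Pc γ c = γ 0 := by
    have := Pc_inv γ heven 0
    simpa [dot_zero, ce_zero] using this
  rw [e1, ← e2, Finset.mul_sum]
  apply Finset.sum_le_sum
  intro c _
  exact mul_le_mul_of_nonneg_right (h1 c) (h0 c)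

/-! ### Characters of `G` -/

/-- The homomorphism `G → ZMod 7` given by `ξ`. -/
noncomputable def pair (ξ : ℕ → ZMod 7) : G →ₗ[ZMod 7] ZMod 7 := Finsupp.linearCombination (ZMod 7) ξ

theorem pair_emb (ξ : ℕ → ZMod 7) (k : ℕ) (v : Fin k → ZMod 7) :
    pair ξ (emb k v) = dot v (fun i => ξ i) := by
  simp [pair, emb, dot, Finsupp.linearCombination_single]

theorem pair_single (ξ : ℕ → ZMod 7) (k : ℕ) (r : ZMod 7) :
    pair ξ (Finsupp.single k r) = r * ξ k := by
  simp [pair, Finsupp.linearCombination_single]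

/-- Autocorrelation. -/
noncomputable def acor (m : (G → ℝ) → ℝ) (F : G → ℝ) (h : G) : ℝ := m (fun x => F x * F (x + h))

theorem acor_shift {m : (G → ℝ) → ℝ} (hm : IsMean m) {F : G → ℝ} (hF : Bdd F) (a b : G) :
    m (fun x => F (x + a) * F (x + b)) = acor m F (b - a) := by
  have := hm.inv a (fun x => F x * F (x + (b - a))) (hF.mul (hF.comp _))
  rw [acor, ← this]
  congr 1
  funext x
  congr 2
  abel

theorem acor_neg {m : (G → ℝ) → ℝ} (hm : IsMean m) {F : G → ℝ} (hF : Bdd F) (h : G) :
    acor m F (-h) = acor m F h := by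
  have := acor_shift hm hF h 0
  rw [zero_sub] at this
  rw [← this, acor]
  congr 1
  funext x
  rw [add_zero, mul_comm]

/-- The local spectral mass of `F` at `ξ`. -/
noncomputable def P (m : (G → ℝ) → ℝ) (F : G → ℝ) (k : ℕ) (ξ : ℕ → ZMod 7) : ℝ :=
  avg k (fun v => acor m F (emb k v) * ce (pair ξ (emb k v)))

theorem P_eq_Pc (m : (G → ℝ) → ℝ) (F : G → ℝ) (k : ℕ) (ξ : ℕ → ZMod 7) :
    P m F k ξ = Pc (fun v => acor m F (emb k v)) (fun i => ξ i) := by
  simp [P, Pc, pair_emb]

theorem avg_avg_sub (k : ℕ) (f : (Fin k → ZMod 7) → ℝ) :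
    avg k (fun v => avg k (fun w => f (w - v))) = avg k f := by
  have : (fun v => avg k (fun w => f (w - v))) = fun _ => avg k f := by
    funext v
    have := avg_shift k f (-v)
    simpa [sub_eq_add_neg] using this
  rw [this, avg_const]

theorem avg_mul_avg (k : ℕ) (f g : (Fin k → ZMod 7) → ℝ) :
    avg k f * avg k g = avg k (fun v => avg k (fun w => f v * g w)) := by
  have : (fun v => avg k (fun w => f v * g w)) = fun v => avg k g * f v := by
    funext v
    rw [avg_mul_left, mul_comm]
  rw [this, avg_mul_left, mul_comm]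

theorem P_nonneg {m : (G → ℝ) → ℝ} (hm : IsMean m) {F : G → ℝ} (hF : Bdd F) (k : ℕ)
    (ξ : ℕ → ZMod 7) : 0 ≤ P m F k ξ := by
  have key : P m F k ξ = m (fun x =>
      (avg k (fun v => F (x + emb k v) * ce (pair ξ (emb k v)))) *
        (avg k (fun v => F (x + emb k v) * ce (pair ξ (emb k v)))) +
      (avg k (fun v => F (x + emb k v) * se (pair ξ (emb k v)))) *
        (avg k (fun v => F (x + emb k v) * se (pair ξ (emb k v))))) := by
    have e1 : (fun x => (avg k (fun v => F (x + emb k v) * ce (pair ξ (emb k v)))) *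
        (avg k (fun v => F (x + emb k v) * ce (pair ξ (emb k v)))) +
      (avg k (fun v => F (x + emb k v) * se (pair ξ (emb k v)))) *
        (avg k (fun v => F (x + emb k v) * se (pair ξ (emb k v))))) =
        fun x => avg k (fun v => avg k (fun w =>
          (F (x + emb k v) * F (x + emb k w)) * ce (pair ξ (emb k (w - v))))) := by
      funext x
      rw [avg_mul_avg, avg_mul_avg, ← avg_add]
      congr 1
      funext v
      rw [← avg_add]
      congr 1
      funext w
      rw [emb_sub, map_sub, ce_sub]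
      ring
    rw [e1]
    have hb : ∀ v w : Fin k → ZMod 7, Bdd (fun x =>
        (F (x + emb k v) * F (x + emb k w)) * ce (pair ξ (emb k (w - v)))) := fun v w =>
      ((hF.comp _).mul (hF.comp _)).mul (Bdd.const _)
    rw [hm.avg (F := fun v x => avg k (fun w =>
          (F (x + emb k v) * F (x + emb k w)) * ce (pair ξ (emb k (w - v)))))
          (fun v => Bdd.avg (fun w => hb v w))]
    have e2 : (fun v => m (fun x => avg k (fun w =>
          (F (x + emb k v) * F (x + emb k w)) * ce (pair ξ (emb k (w - v)))))) =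
        fun v => avg k (fun w => (fun u => acor m F (emb k u) * ce (pair ξ (emb k u))) (w - v)) := by
      funext v
      rw [hm.avg (F := fun w x =>
          (F (x + emb k v) * F (x + emb k w)) * ce (pair ξ (emb k (w - v)))) (fun w => hb v w)]
      congr 1
      funext w
      rw [hm.mul_const _ ((hF.comp _).mul (hF.comp _)), acor_shift hm hF, ← emb_sub]
    rw [e2]
    exact (avg_avg_sub k (fun u => acor m F (emb k u) * ce (pair ξ (emb k u)))).symm
  rw [key]
  apply hm.nonneg
  · have h1 : Bdd (fun x => avg k (fun v => F (x + emb k v) * ce (pair ξ (emb k v)))) :=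
      Bdd.avg (F := fun v x => F (x + emb k v) * ce (pair ξ (emb k v)))
        (fun v => (hF.comp _).mul (Bdd.const _))
    have h2 : Bdd (fun x => avg k (fun v => F (x + emb k v) * se (pair ξ (emb k v)))) :=
      Bdd.avg (F := fun v x => F (x + emb k v) * se (pair ξ (emb k v)))
        (fun v => (hF.comp _).mul (Bdd.const _))
    exact (h1.mul h1).add (h2.mul h2)
  · intro x
    nlinarith [mul_self_nonneg (avg k (fun v => F (x + emb k v) * ce (pair ξ (emb k v)))),
      mul_self_nonneg (avg k (fun v => F (x + emb k v) * se (pair ξ (emb k v))))]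

theorem P_tendsto {m : (G → ℝ) → ℝ} (hext : m ∈ Means.extremePoints ℝ) {F : G → ℝ} (hF : Bdd F)
    (ξ : ℕ → ZMod 7) : Tendsto (fun k => P m F k ξ) UU
      (𝓝 (m (fun x => F x * ce (pair ξ x)) ^ 2 + m (fun x => F x * se (pair ξ x)) ^ 2)) := by
  have hm : IsMean m := hext.1
  have hc : Bdd (fun x => F x * ce (pair ξ x)) :=
    hF.mul (Bdd.of_le 1 (fun x => abs_ce_le _))
  have hs : Bdd (fun x => F x * se (pair ξ x)) :=
    hF.mul (Bdd.of_le 1 (fun x => abs_se_le _))
  refine ((erg hext hc).add (erg hext hs)).congr (fun k => ?_)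
  rw [← avg_add, P]
  congr 1
  funext v
  rw [← hm.add _ _ (hc.mul (hc.comp _)) (hs.mul (hs.comp _)), acor,
    ← hm.mul_const _ (hF.mul (hF.comp _))]
  congr 1
  funext x
  have : ce (pair ξ (emb k v)) = ce (pair ξ (x + emb k v)) * ce (pair ξ x) +
      se (pair ξ (x + emb k v)) * se (pair ξ x) := by
    rw [← ce_sub, ← map_sub]
    congr 2
    abel
  rw [this]
  ring

theorem P_succ_le {m : (G → ℝ) → ℝ} (hm : IsMean m) {F : G → ℝ} (hF : Bdd F) (k : ℕ)
    (ξ : ℕ → ZMod 7) : P m F (k + 1) ξ ≤ P m F k ξ := by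
  classical
  have hpair : ∀ (t r : ZMod 7) (w : Fin k → ZMod 7),
      pair (Function.update ξ k t) (emb k w + Finsupp.single k r) = pair ξ (emb k w) + t * r := by
    intro t r w
    rw [map_add, pair_single, pair_emb, pair_emb, Function.update_self, mul_comm r t]
    congr 1
    unfold dot
    apply Finset.sum_congr rfl
    intro i _
    show w i * Function.update ξ k t (i : ℕ) = w i * ξ i
    rw [Function.update_of_ne (ne_of_lt i.2)]
  have hemb : ∀ (w : Fin k → ZMod 7) (r : ZMod 7),
      emb (k + 1) (Fin.snocEquiv (fun _ => ZMod 7) (r, w)) = emb k w + Finsupp.single k r := by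
    intro w r
    rw [emb, Fin.sum_univ_castSucc, emb]
    simp [Fin.snocEquiv]
  have hsum : ∑ t : ZMod 7, P m F (k + 1) (Function.update ξ k t) = P m F k ξ := by
    have e1 : ∀ t : ZMod 7, P m F (k + 1) (Function.update ξ k t) =
        (∑ r : ZMod 7, ∑ w : Fin k → ZMod 7, acor m F (emb k w + Finsupp.single k r) *
          ce (pair ξ (emb k w) + t * r)) / 7 ^ (k + 1) := by
      intro t
      rw [P, avg, ← (Fin.snocEquiv (fun _ => ZMod 7)).sum_comp]
      have : ∀ p : ZMod 7 × (Fin k → ZMod 7),
          acor m F (emb (k + 1) (Fin.snocEquiv (fun _ => ZMod 7) p)) *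
            ce (pair (Function.update ξ k t) (emb (k + 1) (Fin.snocEquiv (fun _ => ZMod 7) p))) =
          acor m F (emb k p.2 + Finsupp.single k p.1) * ce (pair ξ (emb k p.2) + t * p.1) := by
        rintro ⟨r, w⟩
        rw [hemb, hpair]
      rw [Finset.sum_congr rfl (fun p _ => this p), Fintype.sum_prod_type]
    simp only [e1]
    rw [← Finset.sum_div, Finset.sum_comm]
    have e2 : ∀ r : ZMod 7, ∑ t : ZMod 7, ∑ w : Fin k → ZMod 7,
        acor m F (emb k w + Finsupp.single k r) * ce (pair ξ (emb k w) + t * r) =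
        if r = 0 then 7 * ∑ w : Fin k → ZMod 7, acor m F (emb k w) * ce (pair ξ (emb k w))
          else 0 := by
      intro r
      rw [Finset.sum_comm]
      simp only [← Finset.mul_sum, sum_ce_add]
      split_ifs with hr
      · rw [Finset.mul_sum]
        apply Finset.sum_congr rfl
        intro w _
        rw [hr, Finsupp.single_zero, add_zero]
        ring
      · simp
    simp only [e2, Finset.sum_ite_eq', Finset.mem_univ, if_true]
    rw [P, avg, pow_succ]
    field_simp
  have h1 : P m F (k + 1) ξ = P m F (k + 1) (Function.update ξ k (ξ k)) := by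
    rw [Function.update_eq_self]
  rw [h1, ← hsum]
  exact Finset.single_le_sum (f := fun t => P m F (k + 1) (Function.update ξ k t))
    (fun t _ => P_nonneg hm hF _ _) (Finset.mem_univ (ξ k))

theorem P_antitone {m : (G → ℝ) → ℝ} (hm : IsMean m) {F : G → ℝ} (hF : Bdd F)
    (ξ : ℕ → ZMod 7) : Antitone (fun k => P m F k ξ) :=
  antitone_nat_of_succ_le (fun k => P_succ_le hm hF k ξ)

/-- A function without correlation with characters has small autocorrelations. -/
theorem wm {m : (G → ℝ) → ℝ} (hext : m ∈ Means.extremePoints ℝ) {F : G → ℝ} (hF : Bdd F)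
    {θ : ℝ} (hcorr : ∀ ξ : ℕ → ZMod 7,
      m (fun x => F x * ce (pair ξ x)) ^ 2 + m (fun x => F x * se (pair ξ x)) ^ 2 < θ) :
    ∃ k0, ∀ k, k0 ≤ k → avg k (fun v => acor m F (emb k v) ^ 2) ≤ θ * acor m F 0 := by
  have hm : IsMean m := hext.1
  let _ : TopologicalSpace (ZMod 7) := ⊥
  have : DiscreteTopology (ZMod 7) := ⟨rfl⟩
  have hcont : ∀ k, Continuous (fun ξ : ℕ → ZMod 7 => P m F k ξ) := by
    intro k
    unfold P avg
    refine Continuous.div_const (continuous_finsetSum _ (fun v _ => ?_)) _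
    refine continuous_const.mul ?_
    have h1 : (fun ξ : ℕ → ZMod 7 => ce (pair ξ (emb k v))) =
        (fun c : Fin k → ZMod 7 => ce (dot v c)) ∘ (fun ξ : ℕ → ZMod 7 => fun i : Fin k => ξ i) := by
      funext ξ
      simp [pair_emb]
    rw [h1]
    apply Continuous.comp
    · exact continuous_of_discreteTopology
    · fun_prop
  have hex : ∃ k0, ∀ ξ : ℕ → ZMod 7, P m F k0 ξ < θ := by
    by_contra hno
    push Not at hno
    have hne := IsCompact.nonempty_iInter_of_sequence_nonempty_isCompact_isClosed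
      (fun k => {ξ : ℕ → ZMod 7 | θ ≤ P m F k ξ})
      (fun k ξ hξ => le_trans hξ (P_succ_le hm hF k ξ))
      (fun k => hno k)
      ((isClosed_le continuous_const (hcont 0)).isCompact)
      (fun k => isClosed_le continuous_const (hcont k))
    obtain ⟨ξ, hξ⟩ := hne
    rw [Set.mem_iInter] at hξ
    have := ge_of_tendsto' (P_tendsto hext hF ξ) (fun k => hξ k)
    exact absurd (hcorr ξ) (not_lt.mpr this)
  obtain ⟨k0, hk0⟩ := hex
  refine ⟨k0, fun k hk => ?_⟩
  have h0 := parseval_le (k := k) (fun v => acor m F (emb k v))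
    (fun v => by rw [emb_neg, acor_neg hm hF]) (θ := θ) ?_ ?_
  · simpa [emb_zero] using h0
  · intro c
    have := P_nonneg hm hF k (fun i => if h : i < k then c ⟨i, h⟩ else 0)
    rw [P_eq_Pc] at this
    simpa using this
  · intro c
    have h1 := P_antitone hm hF (fun i => if h : i < k then c ⟨i, h⟩ else 0) hk
    have h2 := hk0 (fun i => if h : i < k then c ⟨i, h⟩ else 0)
    have h3 : P m F k (fun i => if h : i < k then c ⟨i, h⟩ else 0) =
        Pc (fun v => acor m F (emb k v)) c := by
      rw [P_eq_Pc]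
      simp
    rw [← h3]
    exact (h1.trans_lt h2).le

end Pool.Agent.NH77.BB
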