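import Mathlib
import Pool.Agent.NH77.BB.WM

set_option autoImplicit false

namespace Pool.Agent.NH77.BB

open Filter Topology

/-- Functions on `G` that are periodic modulo a subgroup of finite index. -/
def Per (f : G → ℝ) : Prop :=
  ∃ K : AddSubgroup G, K.FiniteIndex ∧ ∀ x, ∀ k ∈ K, f (x + k) = f x

theorem seven_nsmul (x : G) : 7 • x = 0 := by
  ext i
  rw [Finsupp.smul_apply, Finsupp.zero_apply]
  have : ∀ a : ZMod 7, 7 • a = 0 := by decide
  exact this _

theorem eight_nsmul (x : G) : 8 • x = x := by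
  have : (8 : ℕ) • x = 7 • x + x := succ_nsmul x 7
  rw [this, seven_nsmul, zero_add]

theorem two_four (x : G) : 2 • (4 • x) = x := by
  rw [← mul_nsmul', show 2 * 4 = 8 from rfl, eight_nsmul]

theorem four_two (x : G) : 4 • (2 • x) = x := by
  rw [← mul_nsmul', show 4 * 2 = 8 from rfl, eight_nsmul]

namespace Per

theorem const (c : ℝ) : Per (fun _ => c) := ⟨⊤, inferInstance, fun _ _ _ => rfl⟩

theorem op2 {f g : G → ℝ} (op : ℝ → ℝ → ℝ) (hf : Per f) (hg : Per g) :
    Per (fun x => op (f x) (g x)) := by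
  obtain ⟨K, hK, h1⟩ := hf
  obtain ⟨L, hL, h2⟩ := hg
  refine ⟨K ⊓ L, inferInstance, fun x k hk => ?_⟩
  show op (f (x + k)) (g (x + k)) = op (f x) (g x)
  rw [h1 x k hk.1, h2 x k hk.2]

theorem op1 {f : G → ℝ} (op : ℝ → ℝ) (hf : Per f) : Per (fun x => op (f x)) :=
  op2 (fun a _ => op a) hf hf

theorem add {f g : G → ℝ} (hf : Per f) (hg : Per g) : Per (fun x => f x + g x) :=
  op2 (· + ·) hf hg

theorem mul {f g : G → ℝ} (hf : Per f) (hg : Per g) : Per (fun x => f x * g x) :=
  op2 (· * ·) hf hg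

theorem sum {ι : Type*} (s : Finset ι) {F : ι → G → ℝ} (hF : ∀ i ∈ s, Per (F i)) :
    Per (fun x => ∑ i ∈ s, F i x) := by
  classical
  induction s using Finset.induction_on with
  | empty => simpa using Per.const 0
  | insert a s ha ih =>
    have h1 := hF a (Finset.mem_insert_self a s)
    have h2 := ih (fun i hi => hF i (Finset.mem_insert_of_mem hi))
    have := h1.add h2
    simpa [Finset.sum_insert ha] using this

theorem nsmul {f : G → ℝ} (n : ℕ) (hf : Per f) : Per (fun x => f (n • x)) := by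
  obtain ⟨K, hK, h1⟩ := hf
  refine ⟨K, hK, fun x k hk => ?_⟩
  show f (n • (x + k)) = f (n • x)
  rw [nsmul_add, h1 _ _ (K.nsmul_mem hk n)]

theorem comp_hom (f : ZMod 7 → ℝ) (ξ : ℕ → ZMod 7) : Per (fun x => f (pair ξ x)) := by
  have hfin : Finite ((pair ξ).toAddMonoidHom.range) := inferInstance
  refine ⟨(pair ξ).toAddMonoidHom.ker, AddSubgroup.finiteIndex_ker _, fun x k hk => ?_⟩
  have : pair ξ k = 0 := hk
  show f (pair ξ (x + k)) = f (pair ξ x)
  rw [map_add, this, add_zero]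

end Per

section Quotient

variable (K : AddSubgroup G) [hKi : K.FiniteIndex]

theorem inv_of_mk_eq {α : Type*} {f : G → α} (hf : ∀ x, ∀ k ∈ K, f (x + k) = f x) {x y : G}
    (h : (QuotientAddGroup.mk x : G ⧸ K) = QuotientAddGroup.mk y) : f x = f y := by
  rw [QuotientAddGroup.eq] at h
  have := hf x _ h
  rw [← this]
  congr 1
  abel

theorem apply_out {α : Type*} {f : G → α} (hf : ∀ x, ∀ k ∈ K, f (x + k) = f x) (x : G) :
    f (QuotientAddGroup.mk x : G ⧸ K).out = f x :=
  inv_of_mk_eq K hf (QuotientAddGroup.out_eq' _)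

noncomputable instance instFintypeQ : Fintype (G ⧸ K) := Fintype.ofFinite _

theorem bdd_of_inv {f : G → ℝ} (hf : ∀ x, ∀ k ∈ K, f (x + k) = f x) : Bdd f := by
  refine ⟨∑ q : G ⧸ K, |f q.out|, fun x => ?_⟩
  rw [← apply_out K hf x]
  exact Finset.single_le_sum (f := fun q : G ⧸ K => |f q.out|) (fun q _ => abs_nonneg _)
    (Finset.mem_univ _)

theorem mean_of_inv {m : (G → ℝ) → ℝ} (hm : IsMean m) {f : G → ℝ}
    (hf : ∀ x, ∀ k ∈ K, f (x + k) = f x) :
    m f = (∑ q : G ⧸ K, f q.out) / Fintype.card (G ⧸ K) := by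
  have hb : Bdd f := bdd_of_inv K hf
  have h1 : m (fun x => ∑ q : G ⧸ K, f (x + q.out)) = Fintype.card (G ⧸ K) * m f := by
    rw [hm.sum Finset.univ (F := fun (q : G ⧸ K) x => f (x + q.out)) (fun q _ => hb.comp _)]
    have : ∀ q : G ⧸ K, m (fun x => f (x + q.out)) = m f := fun q => hm.inv _ _ hb
    simp [this]
  have h2 : ∀ x, ∑ q : G ⧸ K, f (x + q.out) = ∑ q : G ⧸ K, f q.out := by
    intro x
    have e : ∀ q : G ⧸ K, f (x + q.out) =
        (fun r : G ⧸ K => f r.out) ((Equiv.addLeft (QuotientAddGroup.mk x : G ⧸ K)) q) := by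
      intro q
      simp only [Equiv.coe_addLeft]
      rw [← apply_out K hf (x + q.out)]
      congr 2
      rw [QuotientAddGroup.mk_add, QuotientAddGroup.out_eq']
    simp only [e]
    exact Equiv.sum_comp (Equiv.addLeft (QuotientAddGroup.mk x : G ⧸ K))
      (fun r : G ⧸ K => f r.out)
  simp only [h2] at h1
  rw [hm.const] at h1
  have hcard : (Fintype.card (G ⧸ K) : ℝ) ≠ 0 := by
    have : 0 < Fintype.card (G ⧸ K) := Fintype.card_pos
    positivity
  rw [eq_div_iff hcard, mul_comm]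
  exact h1.symm

end Quotient

theorem Per.bdd {f : G → ℝ} (hf : Per f) : Bdd f := by
  obtain ⟨K, hK, h⟩ := hf
  exact bdd_of_inv K h

theorem Per.mean_four {m : (G → ℝ) → ℝ} (hm : IsMean m) {f : G → ℝ} (hf : Per f) :
    m (fun x => f (4 • x)) = m f := by
  obtain ⟨K, hK, h⟩ := hf
  have h4 : ∀ x, ∀ k ∈ K, (fun x => f (4 • x)) (x + k) = (fun x => f (4 • x)) x := by
    intro x k hk
    simp only
    rw [nsmul_add, h _ _ (K.nsmul_mem hk 4)]
  rw [mean_of_inv K hm h4, mean_of_inv K hm h]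
  congr 1
  have h8 : ∀ q : G ⧸ K, 8 • q = q := by
    intro q
    induction q using QuotientAddGroup.induction_on with
    | H z => rw [← QuotientAddGroup.mk_nsmul, eight_nsmul]
  let e : (G ⧸ K) ≃ (G ⧸ K) :=
    { toFun := fun q => 4 • q
      invFun := fun q => 2 • q
      left_inv := fun q => by
        show 2 • (4 • q) = q
        rw [← mul_nsmul', show 2 * 4 = 8 from rfl, h8]
      right_inv := fun q => by
        show 4 • (2 • q) = q
        rw [← mul_nsmul', show 4 * 2 = 8 from rfl, h8] }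
  have e1 : ∀ q : G ⧸ K, (fun x => f (4 • x)) q.out = (fun r : G ⧸ K => f r.out) (e q) := by
    intro q
    simp only
    rw [← apply_out K h (4 • q.out)]
    congr 2
    rw [QuotientAddGroup.mk_nsmul, QuotientAddGroup.out_eq']
    rfl
  simp only at e1
  simp only [e1]
  exact Equiv.sum_comp e (fun r : G ⧸ K => f r.out)

/-- Best approximation by periodic functions. -/
theorem exists_approx {m : (G → ℝ) → ℝ} (hm : IsMean m) (A : Set G) {ε : ℝ} (hε : 0 < ε) :
    ∃ w : G → ℝ, Per w ∧ (∀ x, 0 ≤ w x) ∧ (∀ x, w x ≤ 1) ∧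
      ∀ u : G → ℝ, Per u → (∀ x, |u x| ≤ 1) → m (fun x => (ind A x - w x) * u x) ≤ ε := by
  set S : Set ℝ := {r | ∃ w, Per w ∧ r = m (fun x => (ind A x - w x) ^ 2)} with hS
  have hne : S.Nonempty := ⟨_, (fun _ => 0), Per.const 0, rfl⟩
  have hbdd : BddBelow S := by
    refine ⟨0, ?_⟩
    rintro r ⟨w, hw, rfl⟩
    exact hm.nonneg _ (((ind_bdd A).sub hw.bdd).pow 2) (fun x => sq_nonneg _)
  obtain ⟨r, ⟨w0, hw0, hr⟩, hlt⟩ := exists_lt_of_csInf_lt hne
    (show sInf S < sInf S + ε ^ 2 by linarith [pow_pos hε 2])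
  set w : G → ℝ := fun x => max 0 (min 1 (w0 x)) with hw
  have hwP : Per w := hw0.op1 (fun a => max 0 (min 1 a))
  have hwnn : ∀ x, 0 ≤ w x := fun x => le_max_left _ _
  have hwle : ∀ x, w x ≤ 1 := fun x => max_le zero_le_one (min_le_left _ _)
  have hle : m (fun x => (ind A x - w x) ^ 2) ≤ r := by
    rw [hr]
    apply hm.mono (((ind_bdd A).sub hwP.bdd).pow 2) (((ind_bdd A).sub hw0.bdd).pow 2)
    intro x
    have hA : ind A x = 0 ∨ ind A x = 1 := by
      by_cases hx : x ∈ A
      · right; exact ind_of_mem hx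
      · left; exact ind_of_notMem hx
    simp only [hw]
    rcases le_total 0 (min 1 (w0 x)) with h1 | h1
    · rw [max_eq_right h1]
      rcases le_total 1 (w0 x) with h2 | h2
      · rw [min_eq_left h2]
        rcases hA with h | h <;> rw [h] <;> nlinarith
      · rw [min_eq_right h2]
    · rw [max_eq_left h1]
      have h2 : w0 x ≤ 0 := by
        rcases min_le_iff.mp (le_refl (min 1 (w0 x))) with h | h
        · exfalso; linarith
        · rcases le_total 1 (w0 x) with h3 | h3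
          · rw [min_eq_left h3] at h1; linarith
          · rwa [min_eq_right h3] at h1
      rcases hA with h | h <;> rw [h] <;> nlinarith
  refine ⟨w, hwP, hwnn, hwle, fun u hu hu1 => ?_⟩
  have hcomp : sInf S ≤ m (fun x => (ind A x - (w x + ε * u x)) ^ 2) := by
    apply csInf_le hbdd
    exact ⟨fun x => w x + ε * u x, hwP.add ((Per.const ε).mul hu), rfl⟩
  have hb : Bdd (fun x => ind A x - w x) := (ind_bdd A).sub hwP.bdd
  have hub : Bdd u := ⟨1, hu1⟩
  have hexp : m (fun x => (ind A x - (w x + ε * u x)) ^ 2) =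
      m (fun x => (ind A x - w x) ^ 2) - 2 * ε * m (fun x => (ind A x - w x) * u x) +
        ε ^ 2 * m (fun x => u x ^ 2) := by
    have e : (fun x => (ind A x - (w x + ε * u x)) ^ 2) = fun x =>
        ((ind A x - w x) ^ 2 - 2 * ε * ((ind A x - w x) * u x)) + ε ^ 2 * (u x ^ 2) := by
      funext x; ring
    rw [e, hm.add _ _ ((hb.pow 2).sub ((hb.mul hub).smul _)) ((hub.pow 2).smul _),
      hm.sub (hb.pow 2) ((hb.mul hub).smul _), hm.smul _ _ (hb.mul hub), hm.smul _ _ (hub.pow 2)]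
  have hu2 : m (fun x => u x ^ 2) ≤ 1 := by
    apply hm.le_of_le (hub.pow 2)
    intro x
    rw [← sq_abs]
    have := hu1 x
    have h0 := abs_nonneg (u x)
    nlinarith
  have h3 : ε ^ 2 * m (fun x => u x ^ 2) ≤ ε ^ 2 := by
    have : 0 ≤ ε ^ 2 := sq_nonneg _
    nlinarith
  rw [hexp] at hcomp
  have h4 : 2 * ε * m (fun x => (ind A x - w x) * u x) ≤ 2 * ε * ε := by nlinarith
  exact le_of_mul_le_mul_left h4 (by linarith)

/-- Cosets as sets. -/
def cs (K : AddSubgroup G) (t : G) : Set G := {x | x - t ∈ K}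

theorem mem_cs_iff_mk (K : AddSubgroup G) (t x : G) :
    x ∈ cs K t ↔ (QuotientAddGroup.mk x : G ⧸ K) = QuotientAddGroup.mk t := by
  rw [QuotientAddGroup.eq]
  constructor
  · intro h
    have : -(x - t) ∈ K := K.neg_mem h
    rwa [neg_sub, sub_eq_neg_add] at this
  · intro h
    have : -(-x + t) ∈ K := K.neg_mem h
    rw [neg_add, neg_neg, ← sub_eq_add_neg] at this
    exact this

theorem cs_inv (K : AddSubgroup G) (t : G) : ∀ x, ∀ k ∈ K, ind (cs K t) (x + k) = ind (cs K t) x := by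
  intro x k hk
  have : x + k ∈ cs K t ↔ x ∈ cs K t := by
    rw [mem_cs_iff_mk, mem_cs_iff_mk, QuotientAddGroup.mk_add,
      (QuotientAddGroup.eq_zero_iff k).mpr hk, add_zero]
  by_cases h : x ∈ cs K t
  · rw [ind_of_mem h, ind_of_mem (this.mpr h)]
  · rw [ind_of_notMem h, ind_of_notMem (fun h' => h (this.mp h'))]

theorem cs_per (K : AddSubgroup G) [hK : K.FiniteIndex] (t : G) : Per (ind (cs K t)) :=
  ⟨K, hK, cs_inv K t⟩

theorem mean_cs {m : (G → ℝ) → ℝ} (hm : IsMean m) (K : AddSubgroup G) (t : G) :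
    m (ind (cs K t)) = m (ind (K : Set G)) := by
  have := hm.inv (-t) (ind (K : Set G)) (ind_bdd _)
  rw [← this]
  congr 1
  funext x
  by_cases h : x ∈ cs K t
  · rw [ind_of_mem h, ind_of_mem]
    show x + -t ∈ K
    rw [← sub_eq_add_neg]
    exact h
  · rw [ind_of_notMem h, ind_of_notMem]
    intro h'
    apply h
    show x - t ∈ K
    rw [sub_eq_add_neg]
    exact h'

theorem sum_cs (K : AddSubgroup G) [K.FiniteIndex] (x : G) :
    ∑ q : G ⧸ K, ind (cs K q.out) x = 1 := by
  classical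
  rw [Finset.sum_eq_single_of_mem (QuotientAddGroup.mk x : G ⧸ K) (Finset.mem_univ _)]
  · apply ind_of_mem
    rw [mem_cs_iff_mk, QuotientAddGroup.out_eq']
  · intro q _ hq
    apply ind_of_notMem
    rw [mem_cs_iff_mk, QuotientAddGroup.out_eq']
    exact fun h => hq h.symm

theorem card_mul_mean {m : (G → ℝ) → ℝ} (hm : IsMean m) (K : AddSubgroup G) [K.FiniteIndex] :
    (Fintype.card (G ⧸ K) : ℝ) * m (ind (K : Set G)) = 1 := by
  have h1 := hm.sum Finset.univ (F := fun (q : G ⧸ K) => ind (cs K q.out)) (fun q _ => ind_bdd _)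
  simp only [sum_cs, hm.one, mean_cs hm] at h1
  simpa using h1.symm

end Pool.Agent.NH77.BB
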