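import Mathlib
import Pool.Agent.NH77.BB.Per

set_option autoImplicit false

namespace Pool.Agent.NH77.BB

open Filter Topology

/-- The double of a set: `D2 N = 2 N`. -/
def D2 (N : Set G) : Set G := {y | 4 • y ∈ N}

/-- The set `X` is not concentrated (for periodic sets) on the places where `A` is sparse
at the double. -/
def J (m : (G → ℝ) → ℝ) (A X : Set G) (δ : ℝ) : Prop :=
  ∀ N : Set G, Per (ind N) → m (ind (A ∩ D2 N)) ≤ δ → δ ≤ m (ind (X \ N))

theorem ind_diff (X Y : Set G) (x : G) : ind (X \ Y) x = ind X x * (1 - ind Y x) := by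
  by_cases hX : x ∈ X <;> by_cases hY : x ∈ Y <;> simp [ind, hX, hY]

theorem per_ind_of_inv {N : Set G} {K : AddSubgroup G} (hK : K.FiniteIndex)
    (h : ∀ x, ∀ k ∈ K, (x + k ∈ N ↔ x ∈ N)) : Per (ind N) := by
  refine ⟨K, hK, fun x k hk => ?_⟩
  by_cases hx : x ∈ N
  · rw [ind_of_mem hx, ind_of_mem ((h x k hk).mpr hx)]
  · rw [ind_of_notMem hx, ind_of_notMem (fun h' => hx ((h x k hk).mp h'))]

theorem Per.D2 {N : Set G} (h : Per (ind N)) : Per (ind (D2 N)) := by
  have := h.nsmul 4
  exact this

theorem Per.inter {N N' : Set G} (h : Per (ind N)) (h' : Per (ind N')) : Per (ind (N ∩ N')) := by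
  have := h.mul h'
  have e : ind (N ∩ N') = fun x => ind N x * ind N' x := funext (ind_inter N N')
  rw [e]
  exact this

theorem mean_D2 {m : (G → ℝ) → ℝ} (hm : IsMean m) {N : Set G} (h : Per (ind N)) :
    m (ind (D2 N)) = m (ind N) := h.mean_four hm

/-- Choice of a good coset. -/
theorem exists_coset {m : (G → ℝ) → ℝ} (hm : IsMean m) {A X : Set G} {δ η : ℝ}
    (hδ0 : 0 < δ) (hη0 : 0 < η) (hη1 : η ≤ 1) (hJ : J m A X δ) :
    ∃ (K : AddSubgroup G) (_ : K.FiniteIndex) (t : G) (a : ℝ) (F : G → ℝ),
      δ / 2 ≤ a ∧ a ≤ 1 ∧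
      (∀ x, x ∈ cs K (2 • t) → F x = ind A x - a) ∧ (∀ x, x ∉ cs K (2 • t) → F x = 0) ∧
      δ / 4 * m (ind (K : Set G)) ≤ m (ind (X ∩ cs K t)) ∧
      (∀ u : G → ℝ, Per u → (∀ x, |u x| ≤ 1) →
        m (fun x => F x * u x) ≤ η * m (ind (K : Set G))) := by
  classical
  set ε := η * δ / 2 with hε
  have hε0 : 0 < ε := by positivity
  obtain ⟨w, hwP, hw0, hw1, hwu⟩ := exists_approx hm A hε0
  obtain ⟨K, hK, hinv⟩ := hwP
  have hwP : Per w := ⟨K, hK, hinv⟩
  set κ := m (ind (K : Set G)) with hκ
  have hκ0 : 0 ≤ κ := hm.nonneg _ (ind_bdd _) (ind_nonneg _)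
  have hn := card_mul_mean hm K
  rw [← hκ] at hn
  set n : ℝ := (Fintype.card (G ⧸ K) : ℝ) with hn'
  have hn0 : 0 ≤ n := Nat.cast_nonneg _
  have hκpos : 0 < κ := by
    rcases eq_or_lt_of_le hκ0 with h | h
    · rw [← h, mul_zero] at hn; exact absurd hn (by norm_num)
    · exact h
  -- the set where `w` is small at the double
  set N : Set G := {x | w (2 • x) < δ / 2} with hN
  have hNinv : ∀ x, ∀ k ∈ K, (x + k ∈ N ↔ x ∈ N) := by
    intro x k hk
    have : w (2 • (x + k)) = w (2 • x) := by
      rw [nsmul_add]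
      exact hinv _ _ (K.nsmul_mem hk 2)
    simp only [hN, Set.mem_ofPred_eq, this]
  have hNP : Per (ind N) := per_ind_of_inv hK hNinv
  have hD2N : ∀ y, y ∈ D2 N ↔ w y < δ / 2 := by
    intro y
    simp only [D2, hN, Set.mem_ofPred_eq, two_four]
  have hAN : m (ind (A ∩ D2 N)) ≤ δ := by
    have h1 := hwu (ind (D2 N)) hNP.D2 (fun x => by
      rw [abs_of_nonneg (ind_nonneg _ _)]; exact ind_le_one _ _)
    have hb1 : Bdd (fun x => (ind A x - w x) * ind (D2 N) x) :=
      ((ind_bdd A).sub hwP.bdd).mul (ind_bdd _)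
    have h2 : m (ind (A ∩ D2 N)) ≤ m (fun x => (ind A x - w x) * ind (D2 N) x + δ / 2) := by
      apply hm.mono (ind_bdd _) (hb1.add (Bdd.const _))
      intro x
      rw [ind_inter]
      by_cases hx : x ∈ D2 N
      · rw [ind_of_mem hx]
        have := (hD2N x).mp hx
        linarith
      · rw [ind_of_notMem hx]
        have : 0 < δ / 2 := by linarith
        linarith
    rw [hm.add _ _ hb1 (Bdd.const _), hm.const] at h2
    have h3 : ε ≤ δ / 2 := by
      rw [hε]
      nlinarith
    linarith
  have hXN := hJ N hNP hAN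
  -- bad cosets
  set bad : G → Prop := fun t => ∃ u : G → ℝ, Per u ∧ (∀ x, |u x| ≤ 1) ∧
    η * κ < m (fun x => ind (cs K (2 • t)) x * ((ind A x - w x) * u x)) with hbad
  set uu : G ⧸ K → G → ℝ := fun q => if h : bad q.out then Classical.choose h else fun _ => 0
    with huu
  have uu_per : ∀ q, Per (uu q) := by
    intro q
    by_cases h : bad q.out
    · have : uu q = Classical.choose h := by simp [huu, h]
      rw [this]
      exact (Classical.choose_spec h).1
    · have : uu q = fun _ => 0 := by simp [huu, h]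
      rw [this]
      exact Per.const 0
  have uu_le : ∀ q x, |uu q x| ≤ 1 := by
    intro q x
    by_cases h : bad q.out
    · have : uu q = Classical.choose h := by simp [huu, h]
      rw [this]
      exact (Classical.choose_spec h).2.1 x
    · have : uu q = fun _ => 0 := by simp [huu, h]
      rw [this]
      simp
  have hcs2 : ∀ (q : G ⧸ K) (x : G), x ∈ cs K (2 • q.out) ↔
      q = 4 • (QuotientAddGroup.mk x : G ⧸ K) := by
    intro q x
    rw [mem_cs_iff_mk, QuotientAddGroup.mk_nsmul, QuotientAddGroup.out_eq']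
    have h8 : ∀ q : G ⧸ K, 8 • q = q := by
      intro q
      induction q using QuotientAddGroup.induction_on with
      | H z => rw [← QuotientAddGroup.mk_nsmul, eight_nsmul]
    constructor
    · intro h
      rw [h, ← mul_nsmul', show 4 * 2 = 8 from rfl, h8]
    · intro h
      rw [h, ← mul_nsmul', show 2 * 4 = 8 from rfl, h8]
  set U : G → ℝ := fun x => ∑ q : G ⧸ K, ind (cs K (2 • q.out)) x * uu q x with hU
  have hUP : Per U := Per.sum _ (fun q _ => (cs_per K _).mul (uu_per q))
  have hU1 : ∀ x, |U x| ≤ 1 := by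
    intro x
    simp only [hU]
    rw [Finset.sum_eq_single_of_mem (4 • (QuotientAddGroup.mk x : G ⧸ K)) (Finset.mem_univ _)]
    · rw [ind_of_mem ((hcs2 _ x).mpr rfl), one_mul]
      exact uu_le _ x
    · intro q _ hq
      rw [ind_of_notMem (fun h => hq ((hcs2 _ x).mp h)), zero_mul]
  have hfb : Bdd (fun x => ind A x - w x) := (ind_bdd A).sub hwP.bdd
  have hsumU : m (fun x => (ind A x - w x) * U x) =
      ∑ q : G ⧸ K, m (fun x => ind (cs K (2 • q.out)) x * ((ind A x - w x) * uu q x)) := by
    have e : (fun x => (ind A x - w x) * U x) = fun x =>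
        ∑ q : G ⧸ K, ind (cs K (2 • q.out)) x * ((ind A x - w x) * uu q x) := by
      funext x
      simp only [hU, Finset.mul_sum]
      apply Finset.sum_congr rfl
      intro q _
      ring
    rw [e]
    exact hm.sum Finset.univ
      (F := fun (q : G ⧸ K) x => ind (cs K (2 • q.out)) x * ((ind A x - w x) * uu q x))
      (fun q _ => (ind_bdd _).mul (hfb.mul (uu_per q).bdd))
  set B : Finset (G ⧸ K) := Finset.univ.filter (fun q => bad q.out) with hB
  have hBcard : (B.card : ℝ) * κ ≤ δ / 2 := by
    have h1 := hwu U hUP hU1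
    rw [hsumU] at h1
    have h2 : (B.card : ℝ) * (η * κ) ≤
        ∑ q : G ⧸ K, m (fun x => ind (cs K (2 • q.out)) x * ((ind A x - w x) * uu q x)) := by
      rw [← nsmul_eq_mul, ← Finset.sum_const, ← Finset.sum_filter_add_sum_filter_not Finset.univ
        (fun q : G ⧸ K => bad q.out)]
      have h3 : ∑ q ∈ Finset.univ.filter (fun q : G ⧸ K => ¬ bad q.out),
          m (fun x => ind (cs K (2 • q.out)) x * ((ind A x - w x) * uu q x)) = 0 := by
        apply Finset.sum_eq_zero
        intro q hq
        have hq' := (Finset.mem_filter.mp hq).2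
        have : uu q = fun _ => 0 := by simp [huu, hq']
        rw [this]
        simp only [mul_zero]
        exact hm.zero
      rw [h3, add_zero]
      apply Finset.sum_le_sum
      intro q hq
      have hq' : bad q.out := (Finset.mem_filter.mp hq).2
      have : uu q = Classical.choose hq' := by simp [huu, hq']
      rw [this]
      exact (Classical.choose_spec hq').2.2.le
    have h4 : (B.card : ℝ) * κ * η ≤ δ / 2 * η := by
      have : (B.card : ℝ) * κ * η = (B.card : ℝ) * (η * κ) := by ring
      rw [this]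
      have : δ / 2 * η = ε := by rw [hε]; ring
      linarith
    exact le_of_mul_le_mul_right h4 hη0
  -- choose the coset
  have hex : ∃ q : G ⧸ K, ¬ bad q.out ∧ δ / 4 * κ ≤ m (ind ((X \ N) ∩ cs K q.out)) := by
    by_contra hno
    push Not at hno
    have hs := hm.sum Finset.univ (F := fun (q : G ⧸ K) => ind ((X \ N) ∩ cs K q.out))
      (fun q _ => ind_bdd _)
    have e : (fun x => ∑ q : G ⧸ K, ind ((X \ N) ∩ cs K q.out) x) = ind (X \ N) := by
      funext x
      simp only [ind_inter, ← Finset.mul_sum, sum_cs, mul_one]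
    rw [e] at hs
    rw [hs] at hXN
    rw [← Finset.sum_filter_add_sum_filter_not Finset.univ (fun q : G ⧸ K => bad q.out)] at hXN
    have h1 : ∑ q ∈ Finset.univ.filter (fun q : G ⧸ K => bad q.out),
        m (ind ((X \ N) ∩ cs K q.out)) ≤ B.card * κ := by
      rw [← nsmul_eq_mul, ← Finset.sum_const]
      apply Finset.sum_le_sum
      intro q _
      rw [hκ, ← mean_cs hm K q.out]
      apply hm.mono (ind_bdd _) (ind_bdd _)
      intro x
      rw [ind_inter]
      have := ind_le_one (X \ N) x
      have h0 := ind_nonneg (cs K q.out) x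
      nlinarith
    have h2 : ∑ q ∈ Finset.univ.filter (fun q : G ⧸ K => ¬ bad q.out),
        m (ind ((X \ N) ∩ cs K q.out)) ≤ δ / 4 := by
      calc ∑ q ∈ Finset.univ.filter (fun q : G ⧸ K => ¬ bad q.out),
          m (ind ((X \ N) ∩ cs K q.out))
          ≤ ∑ q ∈ Finset.univ.filter (fun q : G ⧸ K => ¬ bad q.out), δ / 4 * κ := by
            apply Finset.sum_le_sum
            intro q hq
            exact (hno q (Finset.mem_filter.mp hq).2).le
        _ ≤ ∑ q : G ⧸ K, δ / 4 * κ := by
            apply Finset.sum_le_sum_of_subset_of_nonneg (Finset.filter_subset _ _)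
            intro _ _ _
            positivity
        _ = δ / 4 := by
            rw [Finset.sum_const, Finset.card_univ, nsmul_eq_mul]
            calc (Fintype.card (G ⧸ K) : ℝ) * (δ / 4 * κ) = δ / 4 * (n * κ) := by
                  rw [hn']; ring
              _ = δ / 4 := by rw [hn, mul_one]
    have h3 : (B.card : ℝ) * κ + δ / 4 < δ := by linarith
    have h4 : ∑ q ∈ Finset.univ.filter (fun q : G ⧸ K => bad q.out),
        m (ind ((X \ N) ∩ cs K q.out)) + ∑ q ∈ Finset.univ.filter (fun q : G ⧸ K => ¬ bad q.out),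
        m (ind ((X \ N) ∩ cs K q.out)) < δ := by linarith
    exact absurd hXN (not_le.mpr h4)
  obtain ⟨q, hqb, hqX⟩ := hex
  set t := q.out with ht
  -- a point of the coset outside N
  have hpt : ∃ x0, x0 ∈ (X \ N) ∩ cs K t := by
    by_contra hno
    push Not at hno
    have : ind ((X \ N) ∩ cs K t) = fun _ => 0 := by
      funext x
      exact ind_of_notMem (hno x)
    rw [this, hm.zero] at hqX
    have : 0 < δ / 4 * κ := by positivity
    linarith
  obtain ⟨x0, ⟨_, hx0N⟩, hx0c⟩ := hpt
  have hwt : w (2 • x0) = w (2 • t) := by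
    have : 2 • x0 = 2 • t + 2 • (x0 - t) := by
      rw [← nsmul_add]
      congr 1
      abel
    rw [this]
    exact hinv _ _ (K.nsmul_mem hx0c 2)
  have ha : δ / 2 ≤ w (2 • t) := by
    rw [← hwt]
    by_contra h
    exact hx0N (not_le.mp h)
  have hwcs : ∀ x, x ∈ cs K (2 • t) → w x = w (2 • t) := by
    intro x hx
    have : x = 2 • t + (x - 2 • t) := by abel
    rw [this]
    exact hinv _ _ hx
  refine ⟨K, hK, t, w (2 • t), fun x => ind (cs K (2 • t)) x * (ind A x - w x), ha, hw1 _,
    ?_, ?_, ?_, ?_⟩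
  · intro x hx
    simp only
    rw [ind_of_mem hx, one_mul, hwcs x hx]
  · intro x hx
    simp only
    rw [ind_of_notMem hx, zero_mul]
  · refine hqX.trans ?_
    apply hm.mono (ind_bdd _) (ind_bdd _)
    intro x
    rw [ind_inter, ind_inter, ind_diff]
    have h1 := ind_nonneg X x
    have h2 := ind_nonneg (cs K t) x
    have h3 := ind_nonneg N x
    have h4 : ind X x * (1 - ind N x) ≤ ind X x := by nlinarith
    exact mul_le_mul_of_nonneg_right h4 h2
  · intro u hu hu1
    by_contra hlt
    push Not at hlt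
    apply hqb
    refine ⟨u, hu, hu1, ?_⟩
    refine lt_of_lt_of_eq hlt ?_
    congr 1
    funext x
    ring

end Pool.Agent.NH77.BB
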