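import Mathlib
import Pool.Agent.NH77.BB.Step

set_option autoImplicit false

namespace Pool.Agent.NH77.BB

open Filter Topology

theorem mean_ind_le {m : (G → ℝ) → ℝ} (hm : IsMean m) {X Y : Set G} (h : X ⊆ Y) :
    m (ind X) ≤ m (ind Y) := by
  apply hm.mono (ind_bdd _) (ind_bdd _)
  intro x
  by_cases hx : x ∈ X
  · rw [ind_of_mem hx, ind_of_mem (h hx)]
  · rw [ind_of_notMem hx]; exact ind_nonneg _ _

/-- The error estimate. -/
theorem error_bound {m : (G → ℝ) → ℝ} (hm : IsMean m) {Y : Set G} {F : G → ℝ} (hF : Bdd F)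
    {k : ℕ} {κ c : ℝ} (hκ : 0 < κ) (hc : 0 < c) (hY : m (ind Y) ≤ κ)
    (h1 : avg k (fun v => acor m (ind Y) (emb k v) ^ 2) ≤ 2 * κ ^ 3)
    (h2 : avg k (fun v => acor m F (emb k v) ^ 2) ≤ 3 * (c ^ 2 / 4) ^ 2 * κ ^ 3) :
    -(c * κ ^ 2) ≤ m (fun b => ind Y b * m (fun x => ind Y x * F (x + b))) := by
  obtain ⟨CF, hCF⟩ := hF
  have hF : Bdd F := ⟨CF, hCF⟩
  set T : G → ℝ := fun b => m (fun x => ind Y x * F (x + b)) with hT
  have hTb : Bdd T := by
    refine ⟨CF, fun b => ?_⟩
    apply hm.abs_le
    intro x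
    rw [abs_mul, abs_of_nonneg (ind_nonneg _ _)]
    have h3 := ind_le_one Y x
    have h4 := hCF (x + b)
    have h5 := abs_nonneg (F (x + b))
    have h6 := ind_nonneg Y x
    nlinarith
  -- averaging over the finite group
  have e1 : m (fun b => ind Y b * T b) =
      m (fun b => avg k (fun v => ind Y (b + emb k v) * T (b + emb k v))) := by
    rw [hm.avg (F := fun v b => ind Y (b + emb k v) * T (b + emb k v))
      (fun v => ((ind_bdd Y).comp _).mul (hTb.comp _))]
    have : (fun v => m (fun b => ind Y (b + emb k v) * T (b + emb k v))) =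
        fun _ => m (fun b => ind Y b * T b) := by
      funext v
      exact hm.inv (emb k v) (fun b => ind Y b * T b) ((ind_bdd Y).mul hTb)
    rw [this, avg_const]
  -- the function g
  set g : G → G → ℝ := fun b x => avg k (fun v => ind Y (b + emb k v) * F (x + (b + emb k v)))
    with hg
  have hgb : ∀ b, Bdd (g b) := fun b =>
    Bdd.avg (F := fun v x => ind Y (b + emb k v) * F (x + (b + emb k v)))
      (fun v => (Bdd.const _).mul (hF.comp _))
  have e2 : ∀ b, avg k (fun v => ind Y (b + emb k v) * T (b + emb k v)) =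
      m (fun x => ind Y x * g b x) := by
    intro b
    have : (fun x => ind Y x * g b x) = fun x => avg k (fun v =>
        ind Y (b + emb k v) * (ind Y x * F (x + (b + emb k v)))) := by
      funext x
      rw [hg]
      simp only
      rw [← avg_mul_left]
      congr 1
      funext v
      ring
    rw [this, hm.avg (F := fun v x => ind Y (b + emb k v) * (ind Y x * F (x + (b + emb k v))))
      (fun v => (((ind_bdd Y).mul (hF.comp _)).smul _))]
    congr 1
    funext v
    rw [hm.smul _ _ ((ind_bdd Y).mul (hF.comp _))]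
  set s := c * κ with hs
  have hs0 : 0 < s := by positivity
  have e3 : ∀ b, -(s / 2) * m (ind Y) - 1 / (2 * s) * m (fun x => g b x * g b x) ≤
      m (fun x => ind Y x * g b x) := by
    intro b
    rw [← hm.smul _ _ (ind_bdd Y), ← hm.smul _ _ ((hgb b).mul (hgb b)),
      ← hm.sub ((ind_bdd Y).smul _) (((hgb b).mul (hgb b)).smul _)]
    apply hm.mono (((ind_bdd Y).smul _).sub (((hgb b).mul (hgb b)).smul _))
      ((ind_bdd Y).mul (hgb b))
    intro x
    have hsq := ind_sq Y x
    have h5 : 0 ≤ (s * ind Y x + g b x) * (s * ind Y x + g b x) := mul_self_nonneg _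
    have h6 : 1 / (2 * s) * ((s * ind Y x + g b x) * (s * ind Y x + g b x)) =
        s / 2 * (ind Y x * ind Y x) + ind Y x * g b x + 1 / (2 * s) * (g b x * g b x) := by
      field_simp
      ring
    have h7 : 0 ≤ 1 / (2 * s) * ((s * ind Y x + g b x) * (s * ind Y x + g b x)) := by positivity
    rw [h6, hsq] at h7
    linarith
  have e4 : ∀ b, m (fun x => g b x * g b x) = avg k (fun v => avg k (fun w =>
      (ind Y (b + emb k v) * ind Y (b + emb k w)) * acor m F (emb k (w - v)))) := by
    intro b
    have e5 : (fun x => g b x * g b x) = fun x => avg k (fun v => avg k (fun w =>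
        (ind Y (b + emb k v) * ind Y (b + emb k w)) *
          (F (x + (b + emb k v)) * F (x + (b + emb k w))))) := by
      funext x
      simp only [hg]
      rw [avg_mul_avg]
      congr 1
      funext v
      congr 1
      funext w
      ring
    rw [e5]
    have hb : ∀ v w, Bdd (fun x => (ind Y (b + emb k v) * ind Y (b + emb k w)) *
          (F (x + (b + emb k v)) * F (x + (b + emb k w)))) := fun v w =>
      ((hF.comp _).mul (hF.comp _)).smul _
    rw [hm.avg (F := fun v x => avg k (fun w => (ind Y (b + emb k v) * ind Y (b + emb k w)) *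
          (F (x + (b + emb k v)) * F (x + (b + emb k w))))) (fun v => Bdd.avg (fun w => hb v w))]
    congr 1
    funext v
    rw [hm.avg (F := fun w x => (ind Y (b + emb k v) * ind Y (b + emb k w)) *
          (F (x + (b + emb k v)) * F (x + (b + emb k w)))) (fun w => hb v w)]
    congr 1
    funext w
    rw [hm.smul _ _ ((hF.comp _).mul (hF.comp _)), acor_shift hm hF]
    congr 2
    rw [emb_sub]
    abel
  have hbb : ∀ v w, Bdd (fun b => (ind Y (b + emb k v) * ind Y (b + emb k w)) *
      acor m F (emb k (w - v))) := fun v w =>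
    (((ind_bdd Y).comp _).mul ((ind_bdd Y).comp _)).mul (Bdd.const _)
  have hggb : Bdd (fun b => m (fun x => g b x * g b x)) := by
    have : (fun b => m (fun x => g b x * g b x)) = fun b => avg k (fun v => avg k (fun w =>
      (ind Y (b + emb k v) * ind Y (b + emb k w)) * acor m F (emb k (w - v)))) := funext e4
    rw [this]
    exact Bdd.avg (fun v => Bdd.avg (fun w => hbb v w))
  have e6 : m (fun b => m (fun x => g b x * g b x)) =
      avg k (fun v => acor m (ind Y) (emb k v) * acor m F (emb k v)) := by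
    have : (fun b => m (fun x => g b x * g b x)) = fun b => avg k (fun v => avg k (fun w =>
      (ind Y (b + emb k v) * ind Y (b + emb k w)) * acor m F (emb k (w - v)))) := funext e4
    rw [this, hm.avg (F := fun v b => avg k (fun w =>
      (ind Y (b + emb k v) * ind Y (b + emb k w)) * acor m F (emb k (w - v))))
      (fun v => Bdd.avg (fun w => hbb v w))]
    rw [← avg_avg_sub k (fun v => acor m (ind Y) (emb k v) * acor m F (emb k v))]
    congr 1
    funext v
    rw [hm.avg (F := fun w b => (ind Y (b + emb k v) * ind Y (b + emb k w)) *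
      acor m F (emb k (w - v))) (fun w => hbb v w)]
    congr 1
    funext w
    rw [hm.mul_const _ (((ind_bdd Y).comp _).mul ((ind_bdd Y).comp _)),
      acor_shift hm (ind_bdd Y), ← emb_sub]
  -- bound of the product average
  have e7 : avg k (fun v => acor m (ind Y) (emb k v) * acor m F (emb k v)) ≤
      3 * (c ^ 2 / 4) * κ ^ 3 := by
    set η := c ^ 2 / 4 with hη
    have hη0 : 0 < η := by positivity
    have h3 : avg k (fun v => acor m (ind Y) (emb k v) * acor m F (emb k v)) ≤
        avg k (fun v => η * acor m (ind Y) (emb k v) ^ 2 + 1 / (4 * η) * acor m F (emb k v) ^ 2) := by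
      apply avg_mono
      intro v
      have h5 : 0 ≤ η * (acor m (ind Y) (emb k v) - 1 / (2 * η) * acor m F (emb k v)) ^ 2 := by
        positivity
      have h6 : η * (acor m (ind Y) (emb k v) - 1 / (2 * η) * acor m F (emb k v)) ^ 2 =
          η * acor m (ind Y) (emb k v) ^ 2 - acor m (ind Y) (emb k v) * acor m F (emb k v) +
            1 / (4 * η) * acor m F (emb k v) ^ 2 := by
        field_simp
        ring
      linarith
    rw [avg_add, avg_mul_left, avg_mul_left] at h3
    have h4 : η * avg k (fun v => acor m (ind Y) (emb k v) ^ 2) ≤ η * (2 * κ ^ 3) :=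
      mul_le_mul_of_nonneg_left h1 hη0.le
    have h5 : 1 / (4 * η) * avg k (fun v => acor m F (emb k v) ^ 2) ≤
        1 / (4 * η) * (3 * η ^ 2 * κ ^ 3) :=
      mul_le_mul_of_nonneg_left h2 (by positivity)
    have h6 : 1 / (4 * η) * (3 * η ^ 2 * κ ^ 3) = 3 / 4 * η * κ ^ 3 := by
      field_simp
    have h7 : 0 ≤ η * κ ^ 3 := by positivity
    rw [h6] at h5
    nlinarith
  -- combine
  have e8 : m (fun b => -(s / 2) * m (ind Y) - 1 / (2 * s) * m (fun x => g b x * g b x)) ≤
      m (fun b => ind Y b * T b) := by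
    rw [e1]
    apply hm.mono ((Bdd.const _).sub (hggb.smul _))
      (Bdd.avg (fun v => ((ind_bdd Y).comp _).mul (hTb.comp _)))
    intro b
    rw [e2]
    exact e3 b
  rw [hm.sub (Bdd.const _) (hggb.smul _), hm.const, hm.smul _ _ hggb, e6] at e8
  refine le_trans ?_ e8
  have h8 : 1 / (2 * s) * avg k (fun v => acor m (ind Y) (emb k v) * acor m F (emb k v)) ≤
      1 / (2 * s) * (3 * (c ^ 2 / 4) * κ ^ 3) := mul_le_mul_of_nonneg_left e7 (by positivity)
  have h9 : 1 / (2 * s) * (3 * (c ^ 2 / 4) * κ ^ 3) = 3 / 8 * c * κ ^ 2 := by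
    rw [hs]
    field_simp
    ring
  have h10 : s / 2 * m (ind Y) ≤ s / 2 * κ := mul_le_mul_of_nonneg_left hY (by positivity)
  have h11 : s / 2 * κ = c * κ ^ 2 / 2 := by rw [hs]; ring
  have h12 : 0 ≤ c * κ ^ 2 := by positivity
  rw [h9] at h8
  rw [h11] at h10
  linarith

/-- The inductive step. -/
theorem step {m : (G → ℝ) → ℝ} (hext : m ∈ Means.extremePoints ℝ) {A X : Set G} {δ : ℝ}
    (hδ0 : 0 < δ) (hδ1 : δ ≤ 1) (hJ : J m A X δ) :
    ∃ b ∈ X, ∃ δ' : ℝ, 0 < δ' ∧ δ' ≤ 1 ∧ J m A {x | x ∈ X ∧ x + b ∈ A} δ' := by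
  have hm : IsMean m := hext.1
  set c := δ ^ 3 / 64 with hc
  have hc0 : 0 < c := by positivity
  have hδ3 : δ ^ 3 ≤ 1 := pow_le_one₀ hδ0.le hδ1
  have hc1 : c ≤ 1 / 64 := by rw [hc]; linarith
  have hη0 : 0 < c ^ 2 / 4 := by positivity
  have hη1 : c ^ 2 / 4 ≤ 1 := by nlinarith
  obtain ⟨K, hK, t, a, F, ha, ha1, hFT, hFT', hXK, hu⟩ := exists_coset hm hδ0 hη0 hη1 hJ
  set η := c ^ 2 / 4 with hη
  set κ := m (ind (K : Set G)) with hκ
  have hκ0 : 0 ≤ κ := hm.nonneg _ (ind_bdd _) (ind_nonneg _)
  have hκpos : 0 < κ := by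
    have hn := card_mul_mean hm K
    rw [← hκ] at hn
    rcases eq_or_lt_of_le hκ0 with h | h
    · rw [← h, mul_zero] at hn; exact absurd hn (by norm_num)
    · exact h
  have hκ1 : κ ≤ 1 := hm.le_of_le (ind_bdd _) (ind_le_one _)
  set T := cs K (2 • t) with hT
  set Y := X ∩ cs K t with hY
  have hYκ : m (ind Y) ≤ κ := by
    rw [hκ, ← mean_cs hm K t]
    exact mean_ind_le hm Set.inter_subset_right
  have hind01 : ∀ x, ind A x = 0 ∨ ind A x = 1 := by
    intro x
    by_cases hx : x ∈ A
    · right; exact ind_of_mem hx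
    · left; exact ind_of_notMem hx
  have hFle : ∀ x, |F x| ≤ ind T x := by
    intro x
    by_cases hx : x ∈ T
    · rw [hFT x hx, ind_of_mem hx, abs_le]
      rcases hind01 x with h | h <;> rw [h] <;> constructor <;> linarith
    · rw [hFT' x hx, ind_of_notMem hx]; simp
  have hFb : Bdd F := ⟨1, fun x => (hFle x).trans (ind_le_one _ _)⟩
  -- correlations
  have hcorr1 : ∀ u : G → ℝ, Per u → (∀ x, |u x| ≤ 1) → m (fun x => F x * u x) ^ 2 ≤
      (η * κ) ^ 2 := by
    intro u hu' hu1
    have h1 := hu u hu' hu1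
    have h2 := hu (fun x => (-1) * u x) ((Per.const (-1)).mul hu') (fun x => by
      rw [abs_mul]; simpa using hu1 x)
    have h3 : m (fun x => F x * ((-1) * u x)) = - m (fun x => F x * u x) := by
      rw [← hm.neg (hFb.mul ⟨1, hu1⟩)]
      congr 1
      funext x
      ring
    rw [h3] at h2
    apply sq_le_sq'
    · linarith
    · exact h1
  have hcorr : ∀ ξ : ℕ → ZMod 7, m (fun x => F x * ce (pair ξ x)) ^ 2 +
      m (fun x => F x * se (pair ξ x)) ^ 2 < 3 * (η * κ) ^ 2 := by
    intro ξ
    have h1 := hcorr1 (fun x => ce (pair ξ x)) (Per.comp_hom ce ξ) (fun x => abs_ce_le _)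
    have h2 := hcorr1 (fun x => se (pair ξ x)) (Per.comp_hom se ξ) (fun x => abs_se_le _)
    have h3 : 0 < (η * κ) ^ 2 := by positivity
    linarith
  obtain ⟨k0, hk0⟩ := wm hext hFb hcorr
  -- density of the subgroup in the finite groups
  have hKprod : ∀ h : G, m (fun x => ind (K : Set G) x * ind (K : Set G) (x + h)) =
      κ * ind (K : Set G) h := by
    intro h
    by_cases hh : h ∈ K
    · rw [ind_of_mem (show h ∈ (K : Set G) from hh), mul_one, hκ]
      congr 1
      funext x
      by_cases hx : x ∈ K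
      · rw [ind_of_mem (show x ∈ (K : Set G) from hx),
          ind_of_mem (show x + h ∈ (K : Set G) from K.add_mem hx hh), mul_one]
      · rw [ind_of_notMem (show x ∉ (K : Set G) from hx), zero_mul]
    · rw [ind_of_notMem (show h ∉ (K : Set G) from hh), mul_zero]
      have : (fun x => ind (K : Set G) x * ind (K : Set G) (x + h)) = fun _ => 0 := by
        funext x
        by_cases hx : x ∈ K
        · rw [ind_of_notMem (show x + h ∉ (K : Set G) from fun h' => hh (by
            have := K.sub_mem h' hx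
            simpa using this)), mul_zero]
        · rw [ind_of_notMem (show x ∉ (K : Set G) from hx), zero_mul]
      rw [this, hm.zero]
  have hKev : ∀ᶠ k in (UU : Filter ℕ), avg k (fun v => ind (K : Set G) (emb k v)) ≤ 2 * κ := by
    have h1 := erg hext (ind_bdd (K : Set G))
    have h2 : κ ^ 2 < 2 * κ ^ 2 := by nlinarith [pow_pos hκpos 2]
    rw [← hκ] at h1
    filter_upwards [h1.eventually_lt_const h2] with k hk
    simp only [hKprod] at hk
    rw [avg_mul_left] at hk
    have : κ * avg k (fun v => ind (K : Set G) (emb k v)) ≤ κ * (2 * κ) := by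
      nlinarith
    exact le_of_mul_le_mul_left this hκpos
  have hkev : ∀ᶠ k in (UU : Filter ℕ), k0 ≤ k := UU_le (eventually_ge_atTop k0)
  obtain ⟨k, hk1, hk2⟩ := (hKev.and hkev).exists
  have hγF : avg k (fun v => acor m F (emb k v) ^ 2) ≤ 3 * (c ^ 2 / 4) ^ 2 * κ ^ 3 := by
    have h1 := hk0 k hk2
    have h2 : acor m F 0 ≤ κ := by
      rw [acor, hκ, ← mean_cs hm K (2 • t)]
      apply hm.mono (hFb.mul (hFb.comp _)) (ind_bdd _)
      intro x
      rw [add_zero]
      have h3 := hFle x
      have h4 := ind_le_one T x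
      have h5 := abs_nonneg (F x)
      calc F x * F x = |F x| * |F x| := (abs_mul_abs_self _).symm
        _ ≤ |F x| * 1 := mul_le_mul_of_nonneg_left (h3.trans h4) h5
        _ = |F x| := mul_one _
        _ ≤ ind T x := h3
    have h3 : 3 * (η * κ) ^ 2 * acor m F 0 ≤ 3 * (η * κ) ^ 2 * κ :=
      mul_le_mul_of_nonneg_left h2 (by positivity)
    calc avg k (fun v => acor m F (emb k v) ^ 2) ≤ 3 * (η * κ) ^ 2 * κ := h1.trans h3
      _ = 3 * (c ^ 2 / 4) ^ 2 * κ ^ 3 := by rw [hη]; ring
  have hγY : avg k (fun v => acor m (ind Y) (emb k v) ^ 2) ≤ 2 * κ ^ 3 := by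
    have h1 : ∀ h : G, acor m (ind Y) h ^ 2 ≤ κ ^ 2 * ind (K : Set G) h := by
      intro h
      by_cases hh : h ∈ K
      · rw [ind_of_mem (show h ∈ (K : Set G) from hh), mul_one]
        have h2 : 0 ≤ acor m (ind Y) h := hm.nonneg _ ((ind_bdd _).mul ((ind_bdd _).comp _))
          (fun x => mul_nonneg (ind_nonneg _ _) (ind_nonneg _ _))
        have h3 : acor m (ind Y) h ≤ κ := by
          refine le_trans ?_ hYκ
          apply hm.mono ((ind_bdd _).mul ((ind_bdd _).comp _)) (ind_bdd _)
          intro x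
          have h4 := ind_le_one Y (x + h)
          have h5 := ind_nonneg Y x
          nlinarith
        exact pow_le_pow_left₀ h2 h3 2
      · have : acor m (ind Y) h = 0 := by
          rw [acor]
          have : (fun x => ind Y x * ind Y (x + h)) = fun _ => 0 := by
            funext x
            by_cases hx : x ∈ Y
            · rw [ind_of_notMem (X := Y) (x := x + h), mul_zero]
              intro h'
              apply hh
              have h1 : x + h - t ∈ K := h'.2
              have h2 : x - t ∈ K := hx.2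
              have := K.sub_mem h1 h2
              have e : x + h - t - (x - t) = h := by abel
              rwa [e] at this
            · rw [ind_of_notMem hx, zero_mul]
          rw [this, hm.zero]
        rw [this, ind_of_notMem (show h ∉ (K : Set G) from hh)]
        norm_num
    calc avg k (fun v => acor m (ind Y) (emb k v) ^ 2)
        ≤ avg k (fun v => κ ^ 2 * ind (K : Set G) (emb k v)) := avg_mono k (fun v => h1 _)
      _ = κ ^ 2 * avg k (fun v => ind (K : Set G) (emb k v)) := avg_mul_left _ _ _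
      _ ≤ κ ^ 2 * (2 * κ) := mul_le_mul_of_nonneg_left hk1 (by positivity)
      _ = 2 * κ ^ 3 := by ring
  have herr := error_bound hm hFb hκpos hc0 hYκ hγY hγF
  -- the main term
  set M : G → ℝ := fun b => m (fun x => ind Y x * ind A (x + b)) with hM
  have hsumT : ∀ b x, b ∈ Y → x ∈ Y → x + b ∈ T := by
    intro b x hb hx
    have h1 : b - t ∈ K := hb.2
    have h2 : x - t ∈ K := hx.2
    have := K.add_mem h2 h1
    have e : x - t + (b - t) = x + b - 2 • t := by
      rw [two_nsmul]; abel
    rw [e] at this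
    exact this
  have hMeq : ∀ b, ind Y b * M b = a * m (ind Y) * ind Y b +
      ind Y b * m (fun x => ind Y x * F (x + b)) := by
    intro b
    by_cases hb : b ∈ Y
    · rw [ind_of_mem hb, one_mul, one_mul, mul_one]
      have : (fun x => ind Y x * ind A (x + b)) = fun x => a * ind Y x +
          ind Y x * F (x + b) := by
        funext x
        by_cases hx : x ∈ Y
        · rw [ind_of_mem hx, hFT _ (hsumT b x hb hx)]; ring
        · rw [ind_of_notMem hx]; ring
      simp only [hM]
      rw [this, hm.add _ _ ((ind_bdd Y).smul _) ((ind_bdd Y).mul (hFb.comp _)),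
        hm.smul _ _ (ind_bdd Y)]
    · rw [ind_of_notMem hb]; ring
  have hTbdd : Bdd (fun b => m (fun x => ind Y x * F (x + b))) := by
    refine ⟨1, fun b => ?_⟩
    apply hm.abs_le
    intro x
    rw [abs_mul, abs_of_nonneg (ind_nonneg _ _)]
    have h3 := ind_le_one Y x
    have h4 := (hFle (x + b)).trans (ind_le_one _ _)
    have h5 := abs_nonneg (F (x + b))
    have h6 := ind_nonneg Y x
    nlinarith
  have hR : m (fun b => ind Y b * M b) = a * m (ind Y) ^ 2 +
      m (fun b => ind Y b * m (fun x => ind Y x * F (x + b))) := by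
    have : (fun b => ind Y b * M b) = fun b => a * m (ind Y) * ind Y b +
      ind Y b * m (fun x => ind Y x * F (x + b)) := funext hMeq
    rw [this, hm.add _ _ ((ind_bdd Y).smul _) ((ind_bdd Y).mul hTbdd), hm.smul _ _ (ind_bdd Y)]
    ring
  have hRge : κ ^ 2 * δ ^ 3 / 64 ≤ m (fun b => ind Y b * M b) := by
    rw [hR]
    have h1 : (δ / 4 * κ) ^ 2 ≤ m (ind Y) ^ 2 := pow_le_pow_left₀ (by positivity) hXK 2
    have h2 : δ / 2 * (δ / 4 * κ) ^ 2 ≤ a * m (ind Y) ^ 2 := by
      apply mul_le_mul ha h1 (by positivity) (by linarith)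
    have h3 : δ / 2 * (δ / 4 * κ) ^ 2 = κ ^ 2 * δ ^ 3 / 32 := by ring
    have h4 : c * κ ^ 2 = κ ^ 2 * δ ^ 3 / 64 := by rw [hc]; ring
    rw [h4] at herr
    rw [h3] at h2
    linarith
  have hexb : ∃ b ∈ Y, κ * δ ^ 3 / 128 ≤ M b := by
    by_contra hno
    push Not at hno
    have h1 : m (fun b => ind Y b * M b) ≤ κ * δ ^ 3 / 128 * κ := by
      calc m (fun b => ind Y b * M b) ≤ m (fun b => κ * δ ^ 3 / 128 * ind Y b) := by
            have hMb : Bdd M := by
              refine ⟨1, fun b => ?_⟩
              apply hm.abs_le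
              intro x
              rw [abs_mul, abs_of_nonneg (ind_nonneg _ _), abs_of_nonneg (ind_nonneg _ _)]
              have h3 := ind_le_one Y x
              have h4 := ind_le_one A (x + b)
              have h5 := ind_nonneg A (x + b)
              have h6 := ind_nonneg Y x
              nlinarith
            apply hm.mono ((ind_bdd Y).mul hMb) ((ind_bdd Y).smul _)
            intro b
            by_cases hb : b ∈ Y
            · rw [ind_of_mem hb, one_mul, mul_one]
              exact (hno b hb).le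
            · rw [ind_of_notMem hb]; simp
        _ = κ * δ ^ 3 / 128 * m (ind Y) := hm.smul _ _ (ind_bdd Y)
        _ ≤ κ * δ ^ 3 / 128 * κ := mul_le_mul_of_nonneg_left hYκ (by positivity)
    have h2 : 0 < κ ^ 2 * δ ^ 3 := by positivity
    nlinarith
  obtain ⟨b, hbY, hMb⟩ := hexb
  refine ⟨b, hbY.1, κ * δ ^ 4 / 1024, by positivity, ?_, ?_⟩
  · have : δ ^ 4 ≤ 1 := pow_le_one₀ hδ0.le hδ1
    nlinarith
  · intro N' hN' hAN'
    set X' : Set G := {x | x ∈ X ∧ x + b ∈ A} with hX'
    -- mean of X' on the coset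
    have h1 : M b ≤ m (ind (X' ∩ cs K t)) := by
      apply le_of_eq
      simp only [hM]
      congr 1
      funext x
      by_cases hx : x ∈ Y
      · by_cases hxb : x + b ∈ A
        · rw [ind_of_mem hx, ind_of_mem hxb, ind_of_mem (show x ∈ X' ∩ cs K t from
            ⟨⟨hx.1, hxb⟩, hx.2⟩), mul_one]
        · rw [ind_of_notMem hxb, ind_of_notMem (X := X' ∩ cs K t), mul_zero]
          intro h
          exact hxb h.1.2
      · rw [ind_of_notMem hx, ind_of_notMem (X := X' ∩ cs K t), zero_mul]
        intro h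
        exact hx ⟨h.1.1, h.2⟩
    -- N' on the coset is small
    have hD2cs : ∀ y, y ∈ D2 (cs K t) ↔ y ∈ T := by
      intro y
      show 4 • y - t ∈ K ↔ y - 2 • t ∈ K
      constructor
      · intro h
        have := K.nsmul_mem h 2
        rw [nsmul_sub, two_four] at this
        exact this
      · intro h
        have := K.nsmul_mem h 4
        rw [nsmul_sub, four_two] at this
        exact this
    have h2 : m (ind (N' ∩ cs K t)) ≤ (2 / δ) * (κ * δ ^ 4 / 1024 + η * κ) := by
      have hP : Per (ind (N' ∩ cs K t)) := hN'.inter (cs_per K t)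
      rw [← mean_D2 hm hP]
      have h3 := hu (fun x => (-1) * ind (D2 N') x) ((Per.const (-1)).mul hN'.D2) (fun x => by
        rw [abs_mul, abs_of_nonneg (ind_nonneg _ _)]
        have := ind_le_one (D2 N') x
        simpa using this)
      have h4 : m (fun x => F x * ((-1) * ind (D2 N') x)) =
          a * m (ind (D2 (N' ∩ cs K t))) - m (fun x => ind A x * ind (D2 (N' ∩ cs K t)) x) := by
        rw [← hm.smul _ _ (ind_bdd _), ← hm.sub ((ind_bdd _).smul _)
          ((ind_bdd _).mul (ind_bdd _))]
        congr 1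
        funext x
        by_cases hx : x ∈ T
        · rw [hFT x hx]
          by_cases hx' : x ∈ D2 N'
          · rw [ind_of_mem hx', ind_of_mem (X := D2 (N' ∩ cs K t))
              (show 4 • x ∈ N' ∩ cs K t from ⟨hx', (hD2cs x).mpr hx⟩)]
            ring
          · rw [ind_of_notMem hx', ind_of_notMem (X := D2 (N' ∩ cs K t))
              (fun h => hx' (show 4 • x ∈ N' from h.1))]
            ring
        · rw [hFT' x hx, ind_of_notMem (X := D2 (N' ∩ cs K t))
            (fun h => hx ((hD2cs x).mp h.2))]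
          ring
      have h5 : m (fun x => ind A x * ind (D2 (N' ∩ cs K t)) x) ≤ κ * δ ^ 4 / 1024 := by
        refine le_trans ?_ hAN'
        apply hm.mono ((ind_bdd _).mul (ind_bdd _)) (ind_bdd _)
        intro x
        rw [ind_inter]
        apply mul_le_mul_of_nonneg_left _ (ind_nonneg _ _)
        by_cases hx : x ∈ D2 (N' ∩ cs K t)
        · rw [ind_of_mem hx, ind_of_mem (X := D2 N') (show 4 • x ∈ N' from hx.1)]
        · rw [ind_of_notMem hx]; exact ind_nonneg _ _
      rw [h4] at h3
      have h6 : a * m (ind (D2 (N' ∩ cs K t))) ≤ κ * δ ^ 4 / 1024 + η * κ := by linarith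
      have h7 : 0 ≤ m (ind (D2 (N' ∩ cs K t))) := hm.nonneg _ (ind_bdd _) (ind_nonneg _)
      have h8 : δ / 2 * m (ind (D2 (N' ∩ cs K t))) ≤ κ * δ ^ 4 / 1024 + η * κ :=
        (mul_le_mul_of_nonneg_right ha h7).trans h6
      have h9 : m (ind (D2 (N' ∩ cs K t))) = (2 / δ) * (δ / 2 * m (ind (D2 (N' ∩ cs K t)))) := by
        field_simp
      rw [h9]
      exact mul_le_mul_of_nonneg_left h8 (by positivity)
    have h3 : m (ind (X' ∩ cs K t)) - m (ind (N' ∩ cs K t)) ≤ m (ind (X' \ N')) := by
      rw [← hm.sub (ind_bdd _) (ind_bdd _)]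
      apply hm.mono ((ind_bdd _).sub (ind_bdd _)) (ind_bdd _)
      intro x
      rw [ind_inter, ind_inter, ind_diff]
      have h4 := ind_nonneg X' x
      have h5 := ind_le_one X' x
      have h6 := ind_nonneg N' x
      have h7 := ind_le_one N' x
      have h8 := ind_nonneg (cs K t) x
      have h9 := ind_le_one (cs K t) x
      have e1 : ind X' x * ind (cs K t) x - ind N' x * ind (cs K t) x =
        (ind X' x - ind N' x) * ind (cs K t) x := by ring
      rw [e1]
      have h10 : 0 ≤ ind X' x * (1 - ind N' x) := mul_nonneg h4 (by linarith)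
      have h11 : ind X' x - ind N' x ≤ ind X' x * (1 - ind N' x) := by nlinarith
      calc (ind X' x - ind N' x) * ind (cs K t) x ≤ (ind X' x * (1 - ind N' x)) * ind (cs K t) x :=
            mul_le_mul_of_nonneg_right h11 h8
        _ ≤ (ind X' x * (1 - ind N' x)) * 1 := mul_le_mul_of_nonneg_left h9 h10
        _ = ind X' x * (1 - ind N' x) := mul_one _
    have h4 : (2 / δ) * (κ * δ ^ 4 / 1024 + η * κ) = κ * δ ^ 3 / 512 + κ * δ ^ 5 / 8192 := by
      rw [hη, hc]
      field_simp
      ring
    have h5 : κ * δ ^ 5 ≤ κ * δ ^ 3 := by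
      apply mul_le_mul_of_nonneg_left _ hκ0
      exact pow_le_pow_of_le_one hδ0.le hδ1 (by norm_num)
    have h6 : κ * δ ^ 4 ≤ κ * δ ^ 3 := by
      apply mul_le_mul_of_nonneg_left _ hκ0
      exact pow_le_pow_of_le_one hδ0.le hδ1 (by norm_num)
    have h7 : 0 < κ * δ ^ 3 := by positivity
    rw [h4] at h2
    linarith

end Pool.Agent.NH77.BB
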