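import Mathlib
import Pool.Agent.NH77.BB.Step2

set_option autoImplicit false

namespace Pool.Agent.NH77.BB

open Filter Topology

/-- Sets from which the construction can be continued. -/
def Good (m : (G → ℝ) → ℝ) (A X : Set G) : Prop := ∃ δ : ℝ, 0 < δ ∧ δ ≤ 1 ∧ J m A X δ

theorem good_step {m : (G → ℝ) → ℝ} (hext : m ∈ Means.extremePoints ℝ) {A X : Set G}
    (hX : Good m A X) : ∃ b ∈ X, Good m A {x | x ∈ X ∧ x + b ∈ A ∧ x ≠ b} := by
  have hm : IsMean m := hext.1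
  obtain ⟨δ, h0, h1, hJ⟩ := hX
  obtain ⟨b, hb, δ', h0', h1', hJ'⟩ := step hext h0 h1 hJ
  refine ⟨b, hb, δ', h0', h1', fun N hN hAN => ?_⟩
  have h2 := hJ' N hN hAN
  have h3 : m (ind ({x | x ∈ X ∧ x + b ∈ A} \ N)) ≤
      m (ind ({x | x ∈ X ∧ x + b ∈ A ∧ x ≠ b} \ N)) + m (ind {b}) := by
    rw [← hm.add _ _ (ind_bdd _) (ind_bdd _)]
    apply hm.mono (ind_bdd _) ((ind_bdd _).add (ind_bdd _))
    intro x
    by_cases hx : x ∈ ({x | x ∈ X ∧ x + b ∈ A} \ N : Set G)
    · rw [ind_of_mem hx]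
      by_cases hxb : x = b
      · rw [ind_of_mem (X := {b}) hxb]
        have := ind_nonneg ({x | x ∈ X ∧ x + b ∈ A ∧ x ≠ b} \ N) x
        linarith
      · rw [ind_of_mem (X := {x | x ∈ X ∧ x + b ∈ A ∧ x ≠ b} \ N) ⟨⟨hx.1.1, hx.1.2, hxb⟩, hx.2⟩]
        have := ind_nonneg {b} x
        linarith
    · rw [ind_of_notMem hx]
      exact add_nonneg (ind_nonneg _ _) (ind_nonneg _ _)
  rw [hm.ind_singleton, add_zero] at h3
  exact h2.trans h3

theorem exists_seq {m : (G → ℝ) → ℝ} (hext : m ∈ Means.extremePoints ℝ) {A X : Set G}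
    (hX : Good m A X) : ∃ b : ℕ → G, Function.Injective b ∧ (∀ n, b n ∈ X) ∧
      ∀ i j, i < j → b j + b i ∈ A := by
  classical
  let nxt : {Y : Set G // Good m A Y} → {Y : Set G // Good m A Y} := fun Y =>
    ⟨{x | x ∈ Y.1 ∧ x + Classical.choose (good_step hext Y.2) ∈ A ∧
      x ≠ Classical.choose (good_step hext Y.2)},
      (Classical.choose_spec (good_step hext Y.2)).2⟩
  let s : ℕ → {Y : Set G // Good m A Y} := fun n => Nat.rec ⟨X, hX⟩ (fun _ Y => nxt Y) n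
  let b : ℕ → G := fun n => Classical.choose (good_step hext (s n).2)
  have hs : ∀ n, (s (n + 1)).1 = {x | x ∈ (s n).1 ∧ x + b n ∈ A ∧ x ≠ b n} := fun n => rfl
  have hb : ∀ n, b n ∈ (s n).1 := fun n => (Classical.choose_spec (good_step hext (s n).2)).1
  have hanti : ∀ i j, i ≤ j → (s j).1 ⊆ (s i).1 := by
    intro i j hij
    induction j, hij using Nat.le_induction with
    | base => exact subset_rfl
    | succ n _ ih =>
      intro x hx
      rw [hs] at hx
      exact ih hx.1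
  have hkey : ∀ i j, i < j → b j + b i ∈ A ∧ b j ≠ b i := by
    intro i j hij
    have h1 := hanti (i + 1) j hij (hb j)
    rw [hs] at h1
    exact h1.2
  refine ⟨b, ?_, ?_, fun i j hij => (hkey i j hij).1⟩
  · intro i j hij
    rcases lt_trichotomy i j with h | h | h
    · exact absurd hij.symm (hkey i j h).2
    · exact h
    · exact absurd hij (hkey j i h).2
  · intro n
    exact hanti 0 n (Nat.zero_le n) (hb n)

theorem Per.diff {N N' : Set G} (h : Per (ind N)) (h' : Per (ind N')) : Per (ind (N \ N')) := by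
  have := h.op2 (fun a b => a * (1 - b)) h'
  have e : ind (N \ N') = fun x => ind N x * (1 - ind N' x) := funext (ind_diff N N')
  rw [e]
  exact this

theorem D2_three (N : Set G) : D2 (D2 (D2 N)) = N := by
  ext x
  show 4 • (4 • (4 • x)) ∈ N ↔ x ∈ N
  have : 4 • (4 • (4 • x)) = x := by
    rw [← mul_nsmul', ← mul_nsmul']
    show 64 • x = x
    have h : (64 : ℕ) • x = (7 * 9 + 1) • x := rfl
    rw [h, add_nsmul, one_nsmul, mul_nsmul, seven_nsmul, nsmul_zero, zero_add]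
  rw [this]

theorem initial {m : (G → ℝ) → ℝ} (hm : IsMean m) (A0 A1 A2 : Set G)
    (hl : 1 < m (ind A0) + m (ind A1) + m (ind A2)) :
    Good m A0 A1 ∨ Good m A1 A2 ∨ Good m A2 A0 := by
  by_contra hno
  push Not at hno
  obtain ⟨h0, h1, h2⟩ := hno
  set δ := (m (ind A0) + m (ind A1) + m (ind A2) - 1) / 12 with hδ
  have hδ0 : 0 < δ := by rw [hδ]; linarith
  have hle : ∀ Y : Set G, m (ind Y) ≤ 1 := fun Y => hm.le_of_le (ind_bdd _) (ind_le_one _)
  have hδ1 : δ ≤ 1 := by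
    rw [hδ]
    linarith [hle A0, hle A1, hle A2]
  have f : ∀ A X : Set G, ¬ Good m A X → ∃ N : Set G, Per (ind N) ∧ m (ind (A ∩ D2 N)) ≤ δ ∧
      m (ind (X \ N)) < δ := by
    intro A X h
    have : ¬ J m A X δ := fun hJ => h ⟨δ, hδ0, hδ1, hJ⟩
    unfold J at this
    push Not at this
    exact this
  obtain ⟨N0, hP0, ha0, hb0⟩ := f _ _ h0
  obtain ⟨N1, hP1, ha1, hb1⟩ := f _ _ h1
  obtain ⟨N2, hP2, ha2, hb2⟩ := f _ _ h2
  have g : ∀ A N N' : Set G, m (ind A) ≤ m (ind (N \ D2 N')) + m (ind (A \ N)) +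
      m (ind (A ∩ D2 N')) := by
    intro A N N'
    rw [← hm.add _ _ (ind_bdd _) (ind_bdd _), ← hm.add _ _ ((ind_bdd _).add (ind_bdd _)) (ind_bdd _)]
    apply hm.mono (ind_bdd _) (((ind_bdd _).add (ind_bdd _)).add (ind_bdd _))
    intro x
    rw [ind_diff, ind_diff, ind_inter]
    by_cases hA : x ∈ A <;> by_cases hN : x ∈ N <;> by_cases hN' : x ∈ D2 N' <;>
      simp [ind, hA, hN, hN']
  have g0 := g A0 N2 N0
  have g1 := g A1 N0 N1
  have g2 := g A2 N1 N2
  have e1 : m (ind (N0 \ D2 N1)) = m (ind (D2 (N0 \ D2 N1))) :=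
    (mean_D2 hm (hP0.diff hP1.D2)).symm
  have e2 : m (ind (N1 \ D2 N2)) = m (ind (D2 (D2 (N1 \ D2 N2)))) := by
    rw [mean_D2 hm (hP1.diff hP2.D2).D2, mean_D2 hm (hP1.diff hP2.D2)]
  have hsum : m (ind (N2 \ D2 N0)) + m (ind (D2 (N0 \ D2 N1))) +
      m (ind (D2 (D2 (N1 \ D2 N2)))) ≤ 1 := by
    rw [← hm.add _ _ (ind_bdd _) (ind_bdd _), ← hm.add _ _ ((ind_bdd _).add (ind_bdd _)) (ind_bdd _)]
    apply hm.le_of_le (((ind_bdd _).add (ind_bdd _)).add (ind_bdd _))
    intro x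
    have k1 : x ∈ D2 (N0 \ D2 N1) ↔ x ∈ D2 N0 ∧ x ∉ D2 (D2 N1) := Iff.rfl
    have k2 : x ∈ D2 (D2 (N1 \ D2 N2)) ↔ x ∈ D2 (D2 N1) ∧ x ∉ N2 := by
      have : x ∈ D2 (D2 (D2 N2)) ↔ x ∈ N2 := by rw [D2_three]
      rw [← this]
      exact Iff.rfl
    have k0 : x ∈ N2 \ D2 N0 ↔ x ∈ N2 ∧ x ∉ D2 N0 := Iff.rfl
    by_cases p : x ∈ N2 <;> by_cases q : x ∈ D2 N0 <;> by_cases r : x ∈ D2 (D2 N1) <;>
      simp [ind, Set.indicator, k0, k1, k2, p, q, r]
  have : m (ind A0) + m (ind A1) + m (ind A2) ≤ 1 + 6 * δ := by linarith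
  rw [hδ] at this
  linarith

/-- Main theorem for means: a set whose dilates have total mean larger than one contains
an unrestricted infinite sumset. -/
theorem exists_B {m₀ : (G → ℝ) → ℝ} (hm₀ : IsMean m₀) (A : Set G)
    (hl : 1 < m₀ (ind A) + m₀ (ind {x | 2 • x ∈ A}) + m₀ (ind {x | 4 • x ∈ A})) :
    ∃ B : Set G, B.Infinite ∧ ∀ b ∈ B, ∀ b' ∈ B, b + b' ∈ A := by
  set A1 : Set G := {x | 2 • x ∈ A} with hA1
  set A2 : Set G := {x | 4 • x ∈ A} with hA2
  obtain ⟨m, hext, hle⟩ := exists_extreme hm₀ (fun x => ind A x + ind A1 x + ind A2 x)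
  have hm : IsMean m := hext.1
  rw [hm₀.add _ _ ((ind_bdd _).add (ind_bdd _)) (ind_bdd _), hm₀.add _ _ (ind_bdd _) (ind_bdd _),
    hm.add _ _ ((ind_bdd _).add (ind_bdd _)) (ind_bdd _), hm.add _ _ (ind_bdd _) (ind_bdd _)] at hle
  have hinj2 : Function.Injective (fun x : G => 2 • x) := by
    intro x y h
    have : 4 • (2 • x) = 4 • (2 • y) := by rw [show 2 • x = 2 • y from h]
    rwa [four_two, four_two] at this
  have hinj4 : Function.Injective (fun x : G => 4 • x) := by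
    intro x y h
    have : 2 • (4 • x) = 2 • (4 • y) := by rw [show 4 • x = 4 • y from h]
    rwa [two_four, two_four] at this
  -- a uniform way to finish
  have fin : ∀ b : ℕ → G, Function.Injective b → (∀ n, b n + b n ∈ A) →
      (∀ i j, i < j → b j + b i ∈ A) → ∃ B : Set G, B.Infinite ∧ ∀ b ∈ B, ∀ b' ∈ B, b + b' ∈ A := by
    intro b hb h1 h2
    refine ⟨Set.range b, Set.infinite_range_of_injective hb, ?_⟩
    rintro _ ⟨i, rfl⟩ _ ⟨j, rfl⟩
    rcases lt_trichotomy i j with h | h | h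
    · rw [add_comm]; exact h2 i j h
    · rw [h]; exact h1 j
    · exact h2 j i h
  rcases initial hm A A1 A2 (by linarith) with h | h | h
  · obtain ⟨b, hb, h1, h2⟩ := exists_seq hext h
    refine fin b hb (fun n => ?_) h2
    have := h1 n
    rw [← two_nsmul]
    exact this
  · obtain ⟨b, hb, h1, h2⟩ := exists_seq hext h
    refine fin (fun n => 2 • b n) (hinj2.comp hb) (fun n => ?_) (fun i j hij => ?_)
    · have h3 : 4 • b n ∈ A := h1 n
      have : 2 • b n + 2 • b n = 4 • b n := by rw [← add_nsmul]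
      rw [this]
      exact h3
    · have h3 : 2 • (b j + b i) ∈ A := h2 i j hij
      rw [← nsmul_add]
      exact h3
  · obtain ⟨b, hb, h1, h2⟩ := exists_seq hext h
    refine fin (fun n => 4 • b n) (hinj4.comp hb) (fun n => ?_) (fun i j hij => ?_)
    · have h3 : b n ∈ A := h1 n
      have : 4 • b n + 4 • b n = b n := by
        rw [← add_nsmul]
        exact eight_nsmul _
      rw [this]
      exact h3
    · have h3 : 4 • (b j + b i) ∈ A := h2 i j hij
      rw [← nsmul_add]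
      exact h3

end Pool.Agent.NH77.BB
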