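import Mathlib
import Pool.Agent.NH77.BB.Seq

set_option autoImplicit false

namespace Pool.Agent.NH77.BB

open Filter Topology

/-- Asymptotic invariance of `Ψ` relative to the size of `Φ`. -/
def AsInv (Φ Ψ : ℕ → Finset G) : Prop :=
  ∀ h : G, Tendsto (fun N => (((Ψ N).filter (fun x => x + h ∉ Ψ N)).card : ℝ) / (Φ N).card)
    atTop (𝓝 0)

theorem sum_shift_diff (Ψ : Finset G) (f : G → ℝ) {C : ℝ} (hC : ∀ x, |f x| ≤ C) (h : G) :
    |∑ x ∈ Ψ, f (x + h) - ∑ x ∈ Ψ, f x| ≤
      C * ((Ψ.filter (fun x => x + h ∉ Ψ)).card + (Ψ.filter (fun x => x + -h ∉ Ψ)).card) := by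
  have h1 : ∑ x ∈ Ψ, f (x + h) = ∑ x ∈ Ψ.filter (fun x => x + h ∈ Ψ), f (x + h) +
      ∑ x ∈ Ψ.filter (fun x => ¬ x + h ∈ Ψ), f (x + h) :=
    (Finset.sum_filter_add_sum_filter_not _ _ _).symm
  have h2 : ∑ x ∈ Ψ, f x = ∑ x ∈ Ψ.filter (fun x => x + -h ∈ Ψ), f x +
      ∑ x ∈ Ψ.filter (fun x => ¬ x + -h ∈ Ψ), f x :=
    (Finset.sum_filter_add_sum_filter_not _ _ _).symm
  have h3 : ∑ x ∈ Ψ.filter (fun x => x + h ∈ Ψ), f (x + h) =
      ∑ x ∈ Ψ.filter (fun x => x + -h ∈ Ψ), f x := by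
    apply Finset.sum_bij (fun x _ => x + h)
    · intro x hx
      rw [Finset.mem_filter] at hx ⊢
      refine ⟨hx.2, ?_⟩
      rw [add_neg_cancel_right]
      exact hx.1
    · intro x _ y _ hxy
      exact add_right_cancel hxy
    · intro y hy
      rw [Finset.mem_filter] at hy
      refine ⟨y + -h, ?_, by rw [neg_add_cancel_right]⟩
      rw [Finset.mem_filter, neg_add_cancel_right]
      exact ⟨hy.2, hy.1⟩
    · intro x _
      rfl
  have h4 : ∀ (s : Finset G) (g : G → ℝ), (∀ x, |g x| ≤ C) → |∑ x ∈ s, g x| ≤ C * s.card := by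
    intro s g hg
    refine (Finset.abs_sum_le_sum_abs _ _).trans ?_
    refine (Finset.sum_le_sum (fun x _ => hg x)).trans ?_
    rw [Finset.sum_const, nsmul_eq_mul, mul_comm]
  have h5 := h4 (Ψ.filter (fun x => ¬ x + h ∈ Ψ)) (fun x => f (x + h)) (fun x => hC _)
  have h6 := h4 (Ψ.filter (fun x => ¬ x + -h ∈ Ψ)) f hC
  rw [h1, h2, h3]
  have e : ∑ x ∈ Ψ.filter (fun x => x + -h ∈ Ψ), f x +
      ∑ x ∈ Ψ.filter (fun x => ¬ x + h ∈ Ψ), f (x + h) -
      (∑ x ∈ Ψ.filter (fun x => x + -h ∈ Ψ), f x + ∑ x ∈ Ψ.filter (fun x => ¬ x + -h ∈ Ψ), f x) =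
      ∑ x ∈ Ψ.filter (fun x => ¬ x + h ∈ Ψ), f (x + h) -
        ∑ x ∈ Ψ.filter (fun x => ¬ x + -h ∈ Ψ), f x := by ring
  rw [e, mul_add]
  exact (abs_sub _ _).trans (add_le_add h5 h6)

theorem sum_div_bound {Φ Ψ : Finset G} (hsub : Ψ ⊆ Φ) {f : G → ℝ} {C : ℝ} (hC0 : 0 ≤ C)
    (hC : ∀ x, |f x| ≤ C) : |(∑ x ∈ Ψ, f x) / (Φ.card : ℝ)| ≤ C := by
  rw [abs_div, Nat.abs_cast]
  have h1 : |∑ x ∈ Ψ, f x| ≤ C * Ψ.card := by
    refine (Finset.abs_sum_le_sum_abs _ _).trans ?_
    refine (Finset.sum_le_sum (fun x _ => hC x)).trans ?_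
    rw [Finset.sum_const, nsmul_eq_mul, mul_comm]
  have h2 : (Ψ.card : ℝ) ≤ Φ.card := by exact_mod_cast Finset.card_le_card hsub
  rcases Nat.eq_zero_or_pos Φ.card with h | h
  · rw [h]; simpa using hC0
  · have h3 : (0:ℝ) < Φ.card := by exact_mod_cast h
    rw [div_le_iff₀ h3]
    exact h1.trans (mul_le_mul_of_nonneg_left h2 hC0)

open Classical in
/-- If there is no infinite unrestricted sumset in `A` then the dilates of `A` have total
relative density at most one along any asymptotically invariant sequence. -/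
theorem total_le (V : Ultrafilter ℕ) (hV : (V : Filter ℕ) ≤ atTop) {Φ Ψ : ℕ → Finset G}
    (hsub : ∀ N, Ψ N ⊆ Φ N) (hinv : AsInv Φ Ψ) (A : Set G)
    (hno : ¬ ∃ B : Set G, B.Infinite ∧ ∀ b ∈ B, ∀ b' ∈ B, b + b' ∈ A) {ρ L : ℝ}
    (hρ : Tendsto (fun N => ((Ψ N).card : ℝ) / (Φ N).card) V (𝓝 ρ))
    (hL : Tendsto (fun N => (∑ x ∈ Ψ N, (ind A x + ind {x | 2 • x ∈ A} x +
      ind {x | 4 • x ∈ A} x)) / (Φ N).card) V (𝓝 L)) : L ≤ ρ := by
  have hρ0 : 0 ≤ ρ := ge_of_tendsto' hρ (fun N => by positivity)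
  rcases eq_or_lt_of_le hρ0 with h0 | hpos
  · -- density zero
    have h3 : Tendsto (fun N => 3 * (((Ψ N).card : ℝ) / (Φ N).card)) V (𝓝 (3 * ρ)) :=
      hρ.const_mul 3
    have : L ≤ 3 * ρ := by
      refine le_of_tendsto_of_tendsto' hL h3 (fun N => ?_)
      rw [← mul_div_assoc]
      apply div_le_div_of_nonneg_right _ (by positivity)
      rw [mul_comm, ← nsmul_eq_mul, ← Finset.sum_const]
      apply Finset.sum_le_sum
      intro x _
      have h1 := ind_le_one A x
      have h2 := ind_le_one {x | 2 • x ∈ A} x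
      have h4 := ind_le_one {x | 4 • x ∈ A} x
      linarith
    rw [← h0] at this ⊢
    linarith
  · set a : (G → ℝ) → ℕ → ℝ := fun f N => (∑ x ∈ Ψ N, f x) / (Φ N).card with ha
    have hlim : ∀ {f : G → ℝ}, Bdd f → Tendsto (a f) V (𝓝 (ulim V (a f))) := by
      intro f hf
      obtain ⟨C, hC⟩ := hf
      have hC0 : 0 ≤ C := (abs_nonneg _).trans (hC 0)
      exact tendsto_ulim V (C := C) (fun N => sum_div_bound (hsub N) hC0 hC)
    set m : (G → ℝ) → ℝ := fun f => if Bdd f then ulim V (a f) / ρ else 0 with hm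
    have hmt : ∀ {f : G → ℝ}, Bdd f → Tendsto (fun N => a f N / ρ) V (𝓝 (m f)) := by
      intro f hf
      have : m f = ulim V (a f) / ρ := by simp [hm, hf]
      rw [this]
      exact (hlim hf).div_const ρ
    have hmu : ∀ {f : G → ℝ} {l : ℝ}, Bdd f → Tendsto (fun N => a f N / ρ) V (𝓝 l) → m f = l :=
      fun hf hl => tendsto_nhds_unique (hmt hf) hl
    have hmean : IsMean m := by
      refine ⟨?_, ?_, ?_, ?_, ?_, ?_⟩
      · intro f g hf hg
        apply hmu (hf.add hg)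
        refine ((hmt hf).add (hmt hg)).congr (fun N => ?_)
        simp only [ha, Finset.sum_add_distrib]
        ring
      · intro c f hf
        apply hmu (hf.smul c)
        refine ((hmt hf).const_mul c).congr (fun N => ?_)
        simp only [ha, ← Finset.mul_sum]
        ring
      · intro f hf h
        refine ge_of_tendsto' (hmt hf) (fun N => ?_)
        simp only [ha]
        have : 0 ≤ ∑ x ∈ Ψ N, f x := Finset.sum_nonneg (fun x _ => h x)
        positivity
      · apply hmu (Bdd.const 1)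
        have : Tendsto (fun N => ((Ψ N).card : ℝ) / (Φ N).card / ρ) V (𝓝 (ρ / ρ)) :=
          hρ.div_const ρ
        rw [div_self hpos.ne'] at this
        refine this.congr (fun N => ?_)
        simp [ha]
      · intro h f hf
        apply hmu (hf.comp _)
        obtain ⟨C, hC⟩ := hf
        have hf : Bdd f := ⟨C, hC⟩
        have hd : Tendsto (fun N => a (fun x => f (x + h)) N - a f N) V (𝓝 0) := by
          have hb : Tendsto (fun N => C * ((((Ψ N).filter (fun x => x + h ∉ Ψ N)).card : ℝ) /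
              (Φ N).card + (((Ψ N).filter (fun x => x + -h ∉ Ψ N)).card : ℝ) / (Φ N).card)) V
              (𝓝 (C * (0 + 0))) := (((hinv h).mono_left hV).add ((hinv (-h)).mono_left hV)).const_mul C
          rw [add_zero, mul_zero] at hb
          apply squeeze_zero_norm _ hb
          intro N
          rw [Real.norm_eq_abs]
          simp only [ha]
          rw [← sub_div, abs_div, Nat.abs_cast]
          have := sum_shift_diff (Ψ N) f hC h
          calc |∑ x ∈ Ψ N, f (x + h) - ∑ x ∈ Ψ N, f x| / ((Φ N).card : ℝ)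
              ≤ (C * ((((Ψ N).filter (fun x => x + h ∉ Ψ N)).card : ℝ) +
                (((Ψ N).filter (fun x => x + -h ∉ Ψ N)).card : ℝ))) / ((Φ N).card : ℝ) :=
                div_le_div_of_nonneg_right this (by positivity)
            _ = _ := by ring
        have h2 : Tendsto (fun N => (a (fun x => f (x + h)) N - a f N) / ρ + a f N / ρ) V
            (𝓝 (0 / ρ + m f)) := (hd.div_const ρ).add (hmt hf)
        rw [zero_div, zero_add] at h2
        refine h2.congr (fun N => ?_)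
        ring
      · intro f hf
        simp [hm, hf]
    have hle : m (ind A) + m (ind {x | 2 • x ∈ A}) + m (ind {x | 4 • x ∈ A}) ≤ 1 := by
      by_contra hlt
      push Not at hlt
      exact hno (exists_B hmean A hlt)
    have hL2 : Tendsto (fun N => a (fun x => ind A x + ind {x | 2 • x ∈ A} x +
      ind {x | 4 • x ∈ A} x) N / ρ) V (𝓝 (L / ρ)) := hL.div_const ρ
    have hL3 := hmu (((ind_bdd _).add (ind_bdd _)).add (ind_bdd _)) hL2
    rw [hmean.add _ _ ((ind_bdd _).add (ind_bdd _)) (ind_bdd _),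
      hmean.add _ _ (ind_bdd _) (ind_bdd _)] at hL3
    rw [hL3, div_le_one hpos] at hle
    exact hle

theorem card_filter_le_of_inj {P Q : Finset G} (φ : G → G) (hφ : Function.Injective φ)
    (h : ∀ x ∈ P, φ x ∈ Q) : P.card ≤ Q.card :=
  Finset.card_le_card_of_injOn φ h (fun _ _ _ _ hxy => hφ hxy)

theorem inj_two : Function.Injective (fun x : G => 2 • x) := by
  intro x y h
  have : 4 • (2 • x) = 4 • (2 • y) := by rw [show 2 • x = 2 • y from h]
  rwa [four_two, four_two] at this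

theorem inj_four : Function.Injective (fun x : G => 4 • x) := by
  intro x y h
  have : 2 • (4 • x) = 2 • (4 • y) := by rw [show 4 • x = 4 • y from h]
  rwa [two_four, two_four] at this

/-- The part of `Φ` consisting of full doubling cycles. -/
noncomputable def TT (Φ : Finset G) : Finset G := Φ.filter (fun x => 2 • x ∈ Φ ∧ 4 • x ∈ Φ)

/-- The first points of the broken doubling cycles. -/
noncomputable def SS (Φ : Finset G) : Finset G := Φ.filter (fun x => 2 • x ∈ Φ ∧ 4 • x ∉ Φ)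

theorem asInv_TT {Φ : ℕ → Finset G} (h : AsInv Φ Φ) : AsInv Φ (fun N => TT (Φ N)) := by
  intro g
  have h1 := ((h g).add (h (2 • g))).add (h (4 • g))
  simp only [add_zero] at h1
  refine squeeze_zero (fun N => by positivity) (fun N => ?_) h1
  rw [← add_div, ← add_div]
  apply div_le_div_of_nonneg_right _ (by positivity)
  norm_cast
  beta_reduce
  have hsub : (TT (Φ N)).filter (fun x => x + g ∉ TT (Φ N)) ⊆
      (Φ N).filter (fun x => x + g ∉ Φ N) ∪
      ((Φ N).filter (fun x => 2 • x ∈ Φ N ∧ 2 • x + 2 • g ∉ Φ N) ∪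
      (Φ N).filter (fun x => 4 • x ∈ Φ N ∧ 4 • x + 4 • g ∉ Φ N)) := by
    intro x hx
    simp only [TT, Finset.mem_filter, Finset.mem_union, not_and_or, nsmul_add] at hx ⊢
    tauto
  have c1 : ((Φ N).filter (fun x => 2 • x ∈ Φ N ∧ 2 • x + 2 • g ∉ Φ N)).card ≤
      ((Φ N).filter (fun x => x + 2 • g ∉ Φ N)).card := by
    apply card_filter_le_of_inj (fun x => 2 • x) inj_two
    intro x hx
    simp only [Finset.mem_filter] at hx ⊢
    exact hx.2
  have c2 : ((Φ N).filter (fun x => 4 • x ∈ Φ N ∧ 4 • x + 4 • g ∉ Φ N)).card ≤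
      ((Φ N).filter (fun x => x + 4 • g ∉ Φ N)).card := by
    apply card_filter_le_of_inj (fun x => 4 • x) inj_four
    intro x hx
    simp only [Finset.mem_filter] at hx ⊢
    exact hx.2
  have := Finset.card_le_card hsub
  have h2 := Finset.card_union_le ((Φ N).filter (fun x => x + g ∉ Φ N))
    ((Φ N).filter (fun x => 2 • x ∈ Φ N ∧ 2 • x + 2 • g ∉ Φ N) ∪
      (Φ N).filter (fun x => 4 • x ∈ Φ N ∧ 4 • x + 4 • g ∉ Φ N))
  have h3 := Finset.card_union_le ((Φ N).filter (fun x => 2 • x ∈ Φ N ∧ 2 • x + 2 • g ∉ Φ N))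
      ((Φ N).filter (fun x => 4 • x ∈ Φ N ∧ 4 • x + 4 • g ∉ Φ N))
  omega

theorem asInv_SS {Φ : ℕ → Finset G} (h : AsInv Φ Φ) : AsInv Φ (fun N => SS (Φ N)) := by
  intro g
  have h1 := ((h g).add (h (2 • g))).add (h (-(4 • g)))
  simp only [add_zero] at h1
  refine squeeze_zero (fun N => by positivity) (fun N => ?_) h1
  rw [← add_div, ← add_div]
  apply div_le_div_of_nonneg_right _ (by positivity)
  norm_cast
  beta_reduce
  have hsub : (SS (Φ N)).filter (fun x => x + g ∉ SS (Φ N)) ⊆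
      (Φ N).filter (fun x => x + g ∉ Φ N) ∪
      ((Φ N).filter (fun x => 2 • x ∈ Φ N ∧ 2 • x + 2 • g ∉ Φ N) ∪
      (Φ N).filter (fun x => 4 • x ∉ Φ N ∧ 4 • x + 4 • g ∈ Φ N)) := by
    intro x hx
    simp only [SS, Finset.mem_filter, Finset.mem_union, not_and_or, not_not, nsmul_add] at hx ⊢
    tauto
  have c1 : ((Φ N).filter (fun x => 2 • x ∈ Φ N ∧ 2 • x + 2 • g ∉ Φ N)).card ≤
      ((Φ N).filter (fun x => x + 2 • g ∉ Φ N)).card := by
    apply card_filter_le_of_inj (fun x => 2 • x) inj_two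
    intro x hx
    simp only [Finset.mem_filter] at hx ⊢
    exact hx.2
  have c2 : ((Φ N).filter (fun x => 4 • x ∉ Φ N ∧ 4 • x + 4 • g ∈ Φ N)).card ≤
      ((Φ N).filter (fun x => x + -(4 • g) ∉ Φ N)).card := by
    apply card_filter_le_of_inj (fun x => 4 • x + 4 • g)
      (fun x y hxy => inj_four (add_right_cancel hxy))
    intro x hx
    simp only [Finset.mem_filter] at hx ⊢
    refine ⟨hx.2.2, ?_⟩
    rw [add_neg_cancel_right]
    exact hx.2.1
  have := Finset.card_le_card hsub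
  have h2 := Finset.card_union_le ((Φ N).filter (fun x => x + g ∉ Φ N))
    ((Φ N).filter (fun x => 2 • x ∈ Φ N ∧ 2 • x + 2 • g ∉ Φ N) ∪
      (Φ N).filter (fun x => 4 • x ∉ Φ N ∧ 4 • x + 4 • g ∈ Φ N))
  have h3 := Finset.card_union_le ((Φ N).filter (fun x => 2 • x ∈ Φ N ∧ 2 • x + 2 • g ∉ Φ N))
      ((Φ N).filter (fun x => 4 • x ∉ Φ N ∧ 4 • x + 4 • g ∈ Φ N))
  omega

end Pool.Agent.NH77.BB
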